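import Pool.Agent.Q174.HX.Comp

/-! # Boards with more than one ring: the diagram has more than one component -/

set_option autoImplicit false

namespace Q174.HX

open Q174.HF

theorem six : ∀ a d : Fin 6, a = d ∨ a = d + 1 ∨ a = d + 2 ∨ a = d + 3 ∨ a = d + 4 ∨ a = d + 5 := by
  decide

theorem pick4 : ∀ d e : Fin 6, e ≠ d → e ≠ d + 1 → e ≠ d + 2 → e ≠ d + 5 → e ≠ d + 3 →
    e = d + 4 := by decide

theorem add25 : ∀ d : Fin 6, d + 5 = d + 2 + 3 := by decide

theorem add14 : ∀ d : Fin 6, d + 4 = d + 1 + 3 := by decide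

theorem join_mem_used {T : Drawing} {a : Fin 6} (h : a ∈ used T) : T.join a ∈ used T := by
  rw [mem_used] at h ⊢
  rw [T.join_join]
  exact h.symm

variable {M : Mosaic} (hc : M.SuitablyConnected) (ht : M.InteriorTriple)

include hc ht

/-- On a side whose lateral edges are unused the two inner edges of a tile are joined. -/
theorem join_side {n : ℕ} (hn : 1 ≤ n) (hr : M.r = n + 1) (d : Fin 6) {j : ℤ} (h0 : 0 < j)
    (h1 : j < n) (hd : d + 2 ∉ used (M.tile (P n d 0))) :
    (M.tile (P n d j)).join (d + 3) = d + 4 ∧ (M.tile (P n d j)).join (d + 4) = d + 3 := by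
  obtain ⟨o1, o2⟩ := dist_outer hn d h0.le h1.le
  obtain ⟨i1, i2⟩ := dist_inner hn d h0.le h1
  have i3 := i2 h0
  have u0 : d ∉ used (M.tile (P n d j)) := unused_of_nbr hc (by omega)
  have u1 : d + 1 ∉ used (M.tile (P n d j)) := unused_of_nbr hc (by omega)
  have u3 : d + 3 ∈ used (M.tile (P n d j)) := used_of_nbr hc ht (by omega)
  have u4 : d + 4 ∈ used (M.tile (P n d j)) := used_of_nbr hc ht (by omega)
  have u2 : d + 2 ∉ used (M.tile (P n d j)) := by
    lift j to ℕ using h0.le
    rw [side_all hc ht hn hr d j (by exact_mod_cast h1)]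
    exact hd
  have u5 : d + 5 ∉ used (M.tile (P n d j)) := fun h =>
    u2 ((side_parity d _ (card_used _) u0 u1 u3 u4).2 h)
  have hm := join_mem_used u3
  have key : (M.tile (P n d j)).join (d + 3) = d + 4 := by
    refine pick4 d _ ?_ ?_ ?_ ?_ ?_
    · intro h; rw [h] at hm; exact u0 hm
    · intro h; rw [h] at hm; exact u1 hm
    · intro h; rw [h] at hm; exact u2 hm
    · intro h; rw [h] at hm; exact u5 hm
    · exact (mem_used _ _).1 u3
  exact ⟨key, by rw [← key, Drawing.join_join]⟩

/-- A board with more than one ring carries a link with more than one component. -/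
theorem not_oneComponent {n : ℕ} (hn : 2 ≤ n) (hr : M.r = n + 1) : ¬ M.OneComponent := by
  rintro ⟨-, hone⟩
  have hn1 : 1 ≤ n := by omega
  obtain ⟨s, hs⟩ : ∃ s : ℤ, ∀ d : Fin 6, (s = sgn d ∧ d + 2 ∉ used (M.tile (P n d 0))) ∨
      (s = - sgn d ∧ d + 2 ∈ used (M.tile (P n d 0))) := by
    have step : ∀ (s : ℤ) (d : Fin 6), ((s = sgn d ∧ d + 2 ∉ used (M.tile (P n d 0))) ∨
      (s = - sgn d ∧ d + 2 ∈ used (M.tile (P n d 0)))) →
      ((s = sgn (d + 1) ∧ d + 1 + 2 ∉ used (M.tile (P n (d + 1) 0))) ∨
      (s = - sgn (d + 1) ∧ d + 1 + 2 ∈ used (M.tile (P n (d + 1) 0)))) := by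
      intro s d h
      have ha := alternate hc ht hn1 hr d
      rw [sgn_add]
      rcases h with ⟨h1, h2⟩ | ⟨h1, h2⟩
      · exact Or.inr ⟨by rw [h1]; ring, ha.2 h2⟩
      · exact Or.inl ⟨h1, fun h => (ha.1 h) h2⟩
    have start : ∃ s : ℤ, (s = sgn 0 ∧ (0 : Fin 6) + 2 ∉ used (M.tile (P n 0 0))) ∨
      (s = - sgn 0 ∧ (0 : Fin 6) + 2 ∈ used (M.tile (P n 0 0))) := by
      by_cases h : (0 : Fin 6) + 2 ∈ used (M.tile (P n 0 0))
      · exact ⟨-sgn 0, Or.inr ⟨rfl, h⟩⟩
      · exact ⟨sgn 0, Or.inl ⟨rfl, h⟩⟩
    obtain ⟨s, h0⟩ := start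
    have h1 := step s 0 h0
    have h2 := step s _ h1
    have h3 := step s _ h2
    have h4 := step s _ h3
    have h5 := step s _ h4
    refine ⟨s, fun d => ?_⟩
    fin_cases d
    · exact h0
    · exact h1
    · exact h2
    · exact h3
    · exact h4
    · exact h5
  have hs1 : s = 1 ∨ s = -1 := by
    rcases hs 0 with h | h <;> rcases sgn_cases 0 with h' | h' <;> rw [h.1, h'] <;> simp
  have hint : ∀ p, dist p ≤ 1 → (M.tile p).IsTriple := fun p hp => ht p (by omega)
  have hadd3 : ∀ a : Fin 6, a + 3 ≠ a := by decide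
  have h00 := hone {q | 0 < s * lam q.2 q.1 ∧ s * lam q.2 q.1 < n} ?_ ?_ ?_ (0, 0) 0 ?_
  · simp [lam] at h00
  · refine ⟨(0, s), 0, ?_, ?_⟩
    · rw [hint (0, s) (by unfold dist; rcases hs1 with h | h <;> simp [h]) 0]
      exact hadd3 0
    · show 0 < s * lam 0 (0, s) ∧ s * lam 0 (0, s) < n
      rcases hs1 with h | h <;> simp [h, lam] <;> omega
  · intro p a ha
    by_cases hj : (M.tile p).join a = a
    · rw [hj]; exact ha
    change 0 < s * lam a p ∧ s * lam a p < n at ha
    change 0 < s * lam ((M.tile p).join a) p ∧ s * lam ((M.tile p).join a) p < n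
    rcases lt_trichotomy (dist p) n with hp | hp | hp
    · rw [ht p (by omega) a, lam_add]
      exact ha
    · obtain ⟨d, j, h0, h1, rfl⟩ := exists_P hn1 hp
      obtain ⟨l0, l1, l2⟩ := lam_P n d j
      obtain ⟨o1, o2⟩ := dist_outer hn1 d h0 h1.le
      have hab : a ∈ used (M.tile (P n d j)) := (mem_used _ _).2 hj
      have hsd : s = sgn d ∨ s = - sgn d := by
        rcases hs d with h | h
        · exact Or.inl h.1
        · exact Or.inr h.1
      have l2' : ¬ (0 < s * lam (d + 2) (P n d j) ∧ s * lam (d + 2) (P n d j) < n) := by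
        rw [l2]
        rcases hsd with h | h <;> rcases sgn_cases d with h' | h' <;> rw [h, h'] <;> simp
      rcases six a d with rfl | rfl | rfl | rfl | rfl | rfl
      · exact absurd hab (unused_of_nbr hc (by omega))
      · exact absurd hab (unused_of_nbr hc (by omega))
      · exact absurd ha l2'
      · rw [lam_add, l0] at ha
        have hsd' : s = sgn d := by
          rcases hsd with h | h
          · exact h
          · exfalso
            rcases sgn_cases d with h' | h' <;> rw [h, h'] at ha <;> omega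
        have hj0 : 0 < j := by
          rcases sgn_cases d with h' | h' <;> rw [hsd', h'] at ha <;> omega
        have hd : d + 2 ∉ used (M.tile (P n d 0)) := by
          rcases hs d with h | h
          · exact h.2
          · exfalso
            have h4 := h.1
            rw [hsd'] at h4
            rcases sgn_cases d with h' | h' <;> rw [h'] at h4 <;> omega
        rw [(join_side hc ht hn1 hr d hj0 h1 hd).1, add14, lam_add, l1, hsd']
        rcases sgn_cases d with h' | h' <;> rw [h'] <;> constructor <;> linarith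
      · rw [add14, lam_add, l1] at ha
        have hsd' : s = sgn d := by
          rcases hsd with h | h
          · exact h
          · exfalso
            rcases sgn_cases d with h' | h' <;> rw [h, h'] at ha <;> omega
        have hj0 : 0 < j := by
          rcases sgn_cases d with h' | h' <;> rw [hsd', h'] at ha <;> omega
        have hd : d + 2 ∉ used (M.tile (P n d 0)) := by
          rcases hs d with h | h
          · exact h.2
          · exfalso
            have h4 := h.1
            rw [hsd'] at h4
            rcases sgn_cases d with h' | h' <;> rw [h'] at h4 <;> omega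
        rw [(join_side hc ht hn1 hr d hj0 h1 hd).2, lam_add, l0, hsd']
        rcases sgn_cases d with h' | h' <;> rw [h'] <;> constructor <;> linarith
      · rw [add25, lam_add] at ha
        exact absurd ha l2'
    · exact absurd (M.blank p (by omega) a) hj
  · intro p a _ ha
    change 0 < s * lam (a + 3) (nbr p a) ∧ s * lam (a + 3) (nbr p a) < n
    rw [lam_nbr]
    exact ha
  · rw [hint (0, 0) (by unfold dist; simp) 0]
    exact hadd3 0

end Q174.HX
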