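import Pool.Agent.Q174.HF.Check

/-! # Colourings modulo 5 of knot diagrams are invariant under Reidemeister moves -/

set_option autoImplicit false

namespace Q174.HX

open Q174.HF Q174.HF.Diagram

/-- A colouring modulo 5 (Fox colouring) of a diagram. -/
structure IsCol (D : Diagram) (c : Dart D.n → ZMod 5) : Prop where
  opp : ∀ d, c (D.opp d) = c d
  top : ∀ d, IsOver d → c (thru d) = c d
  bot : ∀ d, ¬ IsOver d → c (thru d) = 2 * c (rot d) - c d

/-- The diagram has a colouring which is not constant. -/
def HasCol (D : Diagram) : Prop := ∃ c, IsCol D c ∧ ∃ d e, c d ≠ c e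

/-- Colourings which ignore the crossings in `S`. -/
structure Flat (D : Diagram) (S : Set (Fin D.n)) (F : Dart D.n → ZMod 5) : Prop where
  opp : ∀ d, F (D.opp d) = F d
  pass : ∀ d, d.1 ∈ S → F (thru d) = F d
  top : ∀ d, d.1 ∉ S → IsOver d → F (thru d) = F d
  bot : ∀ d, d.1 ∉ S → ¬ IsOver d → F (thru d) = 2 * F (rot d) - F d

theorem thru_fst {n : ℕ} (d : Dart n) : (thru d).1 = d.1 := rfl

theorem rot_fst {n : ℕ} (d : Dart n) : (rot d).1 = d.1 := rfl

theorem thru_eq {n : ℕ} (d : Dart n) : thru d = rot (rot d) := by
  obtain ⟨v, k⟩ := d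
  simp only [thru, rot, Prod.mk.injEq, true_and]
  revert k
  decide

theorem Flat.follow {D : Diagram} {S : Set (Fin D.n)} {F : Dart D.n → ZMod 5}
    (h : Flat D S F) {a b : Dart D.n} (hf : D.Follow S a b) : F b = F a := by
  induction hf with
  | stop a _ => exact h.opp a
  | pass a b h1 _ ih => rw [ih, h.pass _ h1, h.opp]

theorem follow_notMem {D : Diagram} {S : Set (Fin D.n)} {a b : Dart D.n}
    (hf : D.Follow S a b) : b.1 ∉ S := by
  induction hf with
  | stop a h => exact h
  | pass a b _ _ ih => exact ih

theorem follow_unique {D : Diagram} {S : Set (Fin D.n)} {a b b' : Dart D.n}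
    (hf : D.Follow S a b) (hf' : D.Follow S a b') : b = b' := by
  induction hf with
  | stop a h =>
    cases hf' with
    | stop _ _ => rfl
    | pass _ _ h1 _ => exact absurd h1 h
  | pass a b h1 _ ih =>
    cases hf' with
    | stop _ h => exact absurd h1 h
    | pass _ _ _ h2 => exact ih h2

open Classical in
theorem follow_rev {D : Diagram} {S : Set (Fin D.n)} {a b : Dart D.n}
    (hf : D.Follow S a b) : ∀ z, (if a.1 ∈ S then D.Follow S (thru a) z else z = a) →
      D.Follow S b z := by
  induction hf with
  | stop a h =>
    intro z hz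
    have e : D.opp (D.opp a) = a := D.opp_opp a
    split_ifs at hz with h1
    · refine Follow.pass _ _ ?_ ?_
      · rw [e]; exact h1
      · rw [e]; exact hz
    · subst hz
      have := Follow.stop (D := D) (S := S) (D.opp z) (by rw [e]; exact h1)
      rwa [e] at this
  | pass a b h1 _ ih =>
    intro z hz
    apply ih
    rw [if_pos (show (thru (D.opp a)).1 ∈ S from h1), thru_thru]
    have e : D.opp (D.opp a) = a := D.opp_opp a
    split_ifs at hz with h2
    · refine Follow.pass _ _ ?_ ?_
      · rw [e]; exact h2
      · rw [e]; exact hz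
    · subst hz
      have := Follow.stop (D := D) (S := S) (D.opp z) (by rw [e]; exact h2)
      rwa [e] at this

/-- If not all crossings are erased, then every strand leads to a crossing not erased. -/
theorem follow_exists {D : Diagram} {S : Set (Fin D.n)} {f : Dart D.n} (hf : f.1 ∉ S)
    (a : Dart D.n) : ∃ b, D.Follow S a b := by
  by_contra ha
  set N : Set (Dart D.n) := {e | ¬ ∃ b, D.Follow S e b} with hN
  have h1 : ∀ e ∈ N, (D.opp e).1 ∈ S ∧ thru (D.opp e) ∈ N := by
    intro e he
    constructor
    · by_contra h
      exact he ⟨_, Follow.stop e h⟩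
    · rintro ⟨b, hb⟩
      by_cases h : (D.opp e).1 ∈ S
      · exact he ⟨b, Follow.pass e b h hb⟩
      · exact he ⟨_, Follow.stop e h⟩
  -- backwards
  set σ : Dart D.n → Dart D.n := fun e => thru (D.opp e) with hσ
  have hσi : Function.Injective σ := by
    intro e e' h
    have h2 : D.opp e = D.opp e' := by
      have := congrArg thru h
      simpa only [hσ, thru_thru] using this
    have := congrArg D.opp h2
    rwa [D.opp_opp, D.opp_opp] at this
  have h2 : ∀ e ∈ N, D.opp (thru e) ∈ N := by
    intro e he
    have hmaps : Set.MapsTo σ N N := fun x hx => (h1 x hx).2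
    have hsurj : Set.SurjOn σ N N := by
      have h3 : σ '' N = N := by
        apply Set.eq_of_subset_of_ncard_le hmaps.image_subset
        rw [Set.ncard_image_of_injective N hσi]
      exact h3.ge
    obtain ⟨e', he', h4⟩ := hsurj he
    have h5 : D.opp (thru e) = e' := by
      rw [← h4]
      simp only [hσ, thru_thru, D.opp_opp]
    rw [h5]
    exact he'
  have h3 := D.knot {d | d ∈ N ∨ D.opp d ∈ N} ⟨a, Or.inl ha⟩ (by
    rintro d (hd | hd)
    · right; change D.opp (D.opp d) ∈ N; rw [D.opp_opp]; exact hd
    · left; exact hd) (by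
    rintro d (hd | hd)
    · right; exact h2 d hd
    · left
      have := (h1 _ hd).2
      rwa [D.opp_opp] at this)
  have h4 : f ∈ N ∨ D.opp f ∈ N := by
    have : f ∈ (Set.univ : Set (Dart D.n)) := Set.mem_univ f
    rwa [← h3] at this
  rcases h4 with h4 | h4
  · have := (h1 _ (h2 _ h4)).1
    rw [D.opp_opp] at this
    exact hf this
  · have := (h1 _ h4).1
    rw [D.opp_opp] at this
    exact hf this

/-- Colourings of the diagram with the crossings in `S` erased. -/
theorem erase_col {D E : Diagram} {S : Set (Fin D.n)} (h : D.Erase S E) :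
    (∃ F, Flat D S F ∧ ∃ d e, F d ≠ F e) ↔ HasCol E := by
  obtain ⟨φ, hinj, hrange, hrot, hover, hfol⟩ := h
  have hthru : ∀ d, φ (thru d) = thru (φ d) := by
    intro d
    rw [thru_eq, thru_eq, hrot, hrot]
  have hns : ∀ d, (φ d).1 ∉ S := fun d => (hrange _).1 ⟨d, rfl⟩
  constructor
  · rintro ⟨F, hF, d, e, hde⟩
    refine ⟨fun x => F (φ x), ⟨fun x => ?_, fun x hx => ?_, fun x hx => ?_⟩, ?_⟩
    · exact hF.follow (hfol x)
    · change F (φ (thru x)) = F (φ x)
      rw [hthru]
      exact hF.top _ (hns x) ((hover x).2 hx)
    · change F (φ (thru x)) = 2 * F (φ (rot x)) - F (φ x)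
      rw [hthru, hrot]
      exact hF.bot _ (hns x) (fun h => hx ((hover x).1 h))
    · by_contra hcon
      push Not at hcon
      by_cases hex : ∃ f : Dart D.n, f.1 ∉ S
      · obtain ⟨f, hf⟩ := hex
        obtain ⟨b, hb⟩ := follow_exists hf d
        obtain ⟨b', hb'⟩ := follow_exists hf e
        obtain ⟨x, rfl⟩ := (hrange b).2 (follow_notMem hb)
        obtain ⟨x', rfl⟩ := (hrange b').2 (follow_notMem hb')
        apply hde
        rw [← hF.follow hb, ← hF.follow hb']
        exact hcon x x'
      · push Not at hex
        have h3 := D.knot {z | F z = F d} ⟨d, rfl⟩ (fun z hz => by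
          change F (D.opp z) = F d
          rw [hF.opp]; exact hz) (fun z hz => by
          change F (thru z) = F d
          rw [hF.pass z (hex z)]; exact hz)
        have h4 : e ∈ {z | F z = F d} := by rw [h3]; exact Set.mem_univ e
        exact hde h4.symm
  · rintro ⟨c, hc, d0, e0, hde⟩
    have hf0 : (φ d0).1 ∉ S := hns d0
    choose out hout using fun a => follow_exists hf0 a
    choose g hg using fun b : Dart D.n => fun hb : b.1 ∉ S => (hrange b).2 hb
    have hout' : ∀ a, (out a).1 ∉ S := fun a => follow_notMem (hout a)
    set F : Dart D.n → ZMod 5 := fun a => c (g (out a) (hout' a)) with hF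
    -- values of F
    have key : ∀ a x, out a = φ x → F a = c x := by
      intro a x hx
      have : g (out a) (hout' a) = x := hinj (by rw [hg, hx])
      rw [hF]
      simp only [this]
    have hFφ : ∀ x, F (φ x) = c x := by
      intro x
      have h1 : out (φ x) = φ (E.opp x) := follow_unique (hout _) (hfol x)
      rw [key _ _ h1, hc.opp]
    have hFopp : ∀ a, F (D.opp a) = F a := by
      intro a
      by_cases ha : (D.opp a).1 ∈ S
      · -- `out a = out (thru (opp a))`, and passing through an erased crossing
        by_cases ha' : a.1 ∈ S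
        · -- reverse direction: out (opp a) is the other end
          have h1 : D.Follow S (D.opp a) (out (thru a)) := by
            refine Follow.pass _ _ ?_ ?_
            · rw [D.opp_opp]; exact ha'
            · rw [D.opp_opp]; exact hout _
          have h2 : out (D.opp a) = out (thru a) := follow_unique (hout _) h1
          obtain ⟨x, hx⟩ := (hrange (out a)).2 (hout' a)
          obtain ⟨y, hy⟩ := (hrange (out (thru a))).2 (hout' _)
          have h3 : D.Follow S (out a) (out (thru a)) :=
            follow_rev (hout a) _ (by rw [if_pos ha']; exact hout _)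
          have h4 : φ y = φ (E.opp x) := by
            rw [hy]
            refine follow_unique h3 ?_
            rw [← hx]
            exact hfol x
          have h5 : y = E.opp x := hinj h4
          rw [key a x hx.symm, key (D.opp a) y (by rw [h2, hy]), h5, hc.opp]
        · obtain ⟨x, rfl⟩ := (hrange a).2 ha'
          have h1 : D.Follow S (D.opp (φ x)) (φ x) := by
            have := Follow.stop (D := D) (S := S) (D.opp (φ x)) (by
              rw [D.opp_opp]; exact ha')
            rwa [D.opp_opp] at this
          have h2 : out (D.opp (φ x)) = φ x := follow_unique (hout _) h1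
          rw [key _ _ h2, hFφ]
      · have h1 : out a = D.opp a := follow_unique (hout _) (Follow.stop a ha)
        obtain ⟨x, hx⟩ := (hrange (D.opp a)).2 ha
        rw [← hx, hFφ, key a x (by rw [h1, hx])]
    have hFpass : ∀ a, a.1 ∈ S → F (thru a) = F a := by
      intro a ha
      obtain ⟨x, hx⟩ := (hrange (out a)).2 (hout' a)
      obtain ⟨y, hy⟩ := (hrange (out (thru a))).2 (hout' _)
      have h3 : D.Follow S (out a) (out (thru a)) :=
        follow_rev (hout a) _ (by rw [if_pos ha]; exact hout _)
      have h4 : φ y = φ (E.opp x) := by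
        rw [hy]
        refine follow_unique h3 ?_
        rw [← hx]
        exact hfol x
      have h5 : y = E.opp x := hinj h4
      rw [key a x hx.symm, key (thru a) y hy.symm, h5, hc.opp]
    refine ⟨F, ⟨hFopp, hFpass, ?_, ?_⟩, φ d0, φ e0, ?_⟩
    · intro a ha hov
      obtain ⟨x, rfl⟩ := (hrange a).2 ha
      rw [← hthru, hFφ, hFφ]
      exact hc.top x ((hover x).1 hov)
    · intro a ha hov
      obtain ⟨x, rfl⟩ := (hrange a).2 ha
      rw [← hthru, ← hrot, hFφ, hFφ, hFφ]
      exact hc.bot x (fun h => hov ((hover x).2 h))
    · rw [hFφ, hFφ]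
      exact hde

end Q174.HX
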