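import Pool.Agent.Q174.HX.Defs

/-! # The boundary tiles; boards with more than one ring -/

set_option autoImplicit false

namespace Q174.HX

open Q174.HF

/-- The tile number `j` on the side `d` of the hexagon of radius `n`. -/
def P (n : ℤ) (d : Fin 6) (j : ℤ) : Tile :=
  (n * (dir d).1 + j * (dir (d + 2)).1, n * (dir d).2 + j * (dir (d + 2)).2)

/-- The linear function which is constant along the direction `a`. -/
def lam (a : Fin 6) (p : Tile) : ℤ := ![p.2, p.1, -p.1 - p.2, p.2, p.1, -p.1 - p.2] a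

/-- signs -/
def sgn (d : Fin 6) : ℤ := ![1, -1, 1, -1, 1, -1] d

theorem sgn_add (d : Fin 6) : sgn (d + 1) = - sgn d := by revert d; decide

theorem sgn_cases (d : Fin 6) : sgn d = 1 ∨ sgn d = -1 := by revert d; decide

theorem add33_ne : ∀ a : Fin 6, a + 3 + 3 ≠ a + 3 := by decide

theorem add23 : ∀ d : Fin 6, d + 2 + 3 = d + 5 := by decide

theorem add23' : ∀ d : Fin 6, d + 2 + 3 = d + 1 + 4 := by decide

theorem lam_nbr (a : Fin 6) (p : Tile) : lam (a + 3) (nbr p a) = lam a p := by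
  fin_cases a <;> simp [lam, nbr, dir] <;> ring

theorem lam_add (a : Fin 6) (p : Tile) : lam (a + 3) p = lam a p := by
  fin_cases a <;> simp [lam]

theorem lam_P (n : ℤ) (d : Fin 6) (j : ℤ) :
    lam d (P n d j) = sgn d * j ∧ lam (d + 1) (P n d j) = sgn d * (n - j) ∧
      lam (d + 2) (P n d j) = sgn d * (-n) := by
  fin_cases d <;> simp [lam, P, dir, sgn] <;> omega

theorem nbr_P_next (n : ℤ) (d : Fin 6) (j : ℤ) : nbr (P n d j) (d + 2) = P n d (j + 1) := by
  fin_cases d <;> simp [nbr, P, dir] <;> ring_nf <;> simp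

theorem P_last (n : ℤ) (d : Fin 6) : P n d n = P n (d + 1) 0 := by
  fin_cases d <;> simp [P, dir]

theorem natAbs_lt (a : ℤ) (n : ℕ) : a.natAbs < n ↔ -n < a ∧ a < n := by omega

theorem dist_P {n : ℕ} (hn : 1 ≤ n) (d : Fin 6) {j : ℤ} (h0 : 0 ≤ j) (h1 : j ≤ n) :
    dist (P n d j) = n := by
  unfold dist
  fin_cases d <;> simp [P, dir] <;> omega

theorem dist_outer {n : ℕ} (hn : 1 ≤ n) (d : Fin 6) {j : ℤ} (h0 : 0 ≤ j) (h1 : j ≤ n) :
    n < dist (nbr (P n d j) d) ∧ n < dist (nbr (P n d j) (d + 1)) := by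
  unfold dist
  fin_cases d <;> simp [P, dir, nbr] <;> omega

theorem dist_inner {n : ℕ} (hn : 1 ≤ n) (d : Fin 6) {j : ℤ} (h0 : 0 ≤ j) (h1 : j < n) :
    dist (nbr (P n d j) (d + 3)) < n ∧ (0 < j → dist (nbr (P n d j) (d + 4)) < n) := by
  unfold dist
  fin_cases d <;> simp [P, dir, nbr] <;> omega

theorem dist_corner {n : ℕ} (hn : 1 ≤ n) (d : Fin 6) :
    n < dist (nbr (P n d 0) (d + 5)) := by
  unfold dist
  fin_cases d <;> simp [P, dir, nbr] <;> omega

theorem exists_P {n : ℕ} (hn : 1 ≤ n) {p : Tile} (hp : dist p = n) :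
    ∃ (d : Fin 6) (j : ℤ), 0 ≤ j ∧ j < n ∧ p = P n d j := by
  obtain ⟨x, y⟩ := p
  unfold dist at hp
  simp only at hp
  by_cases h0 : x + y = n ∧ 0 ≤ y ∧ y < n
  · exact ⟨0, y, h0.2.1, h0.2.2, by simp [P, dir]; omega⟩
  by_cases h1 : y = n ∧ -n < x ∧ x ≤ 0
  · exact ⟨1, -x, by omega, by omega, by simp [P, dir]; omega⟩
  by_cases h2 : x = -n ∧ 0 < y ∧ y ≤ n
  · exact ⟨2, n - y, by omega, by omega, by simp [P, dir]; omega⟩
  by_cases h3 : x + y = -n ∧ -n < y ∧ y ≤ 0
  · exact ⟨3, -y, by omega, by omega, by simp [P, dir]; omega⟩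
  by_cases h4 : y = -n ∧ 0 ≤ x ∧ x < n
  · exact ⟨4, x, by omega, by omega, by simp [P, dir]; omega⟩
  by_cases h5 : x = n ∧ -n ≤ y ∧ y < 0
  · exact ⟨5, y + n, by omega, by omega, by simp [P, dir]; omega⟩
  exfalso
  omega

/-! ### Parity -/

/-- The set of edges with a connection point. -/
def used (T : Drawing) : Finset (Fin 6) := Finset.univ.filter fun a => T.join a ≠ a

theorem mem_used (T : Drawing) (a : Fin 6) : a ∈ used T ↔ T.join a ≠ a := by simp [used]

theorem card_used (T : Drawing) : 2 ∣ (used T).card := by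
  set σ : Equiv.Perm (Fin 6) := ⟨T.join, T.join, T.join_join, T.join_join⟩ with hσ
  have h : σ.support = used T := by
    ext a
    rw [Equiv.Perm.mem_support, mem_used]
    rfl
  rw [← h]
  apply Equiv.Perm.two_dvd_card_support
  ext a
  simp only [hσ, sq, Equiv.Perm.coe_mul, Function.comp_apply, Equiv.Perm.coe_one, id]
  exact congrArg Fin.val (T.join_join a)

theorem side_parity : ∀ d : Fin 6, ∀ S : Finset (Fin 6), 2 ∣ S.card → d ∉ S → d + 1 ∉ S →
    d + 3 ∈ S → d + 4 ∈ S → (d + 2 ∈ S ↔ d + 5 ∈ S) := by decide +kernel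

theorem corner_parity : ∀ d : Fin 6, ∀ S : Finset (Fin 6), 2 ∣ S.card → d ∉ S → d + 1 ∉ S →
    d + 5 ∉ S → d + 3 ∈ S → (d + 4 ∈ S ↔ d + 2 ∉ S) := by decide +kernel

section

variable {M : Mosaic} (hc : M.SuitablyConnected) (ht : M.InteriorTriple)

include hc

theorem unused_of_nbr {p : Tile} {a : Fin 6} (h : M.r ≤ dist (nbr p a)) :
    a ∉ used (M.tile p) := by
  rw [mem_used, hc p a]
  simp [M.blank _ h]

theorem used_iff_nbr {p : Tile} {a : Fin 6} :
    a ∈ used (M.tile p) ↔ a + 3 ∈ used (M.tile (nbr p a)) := by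
  rw [mem_used, mem_used, hc p a]

include ht

theorem used_of_nbr {p : Tile} {a : Fin 6} (h : dist (nbr p a) + 2 ≤ M.r) :
    a ∈ used (M.tile p) := by
  rw [mem_used, hc p a, ht _ h (a + 3)]
  exact add33_ne a

/-- The lateral edges on a side are all used or all unused. -/
theorem side_all {n : ℕ} (hn : 1 ≤ n) (hr : M.r = n + 1) (d : Fin 6) (j : ℕ) (hj : j < n) :
    (d + 2 ∈ used (M.tile (P n d j)) ↔ d + 2 ∈ used (M.tile (P n d 0))) := by
  induction j with
  | zero => simp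
  | succ j ih =>
    rw [← ih (by omega)]
    have e1 : nbr (P n d (j : ℤ)) (d + 2) = P n d ((j + 1 : ℕ) : ℤ) := by
      rw [nbr_P_next]; push_cast; rfl
    rw [used_iff_nbr hc (p := P n d (j : ℤ)) (a := d + 2), e1]
    rw [add23]
    have h0 : (0 : ℤ) ≤ ((j + 1 : ℕ) : ℤ) := by positivity
    have h1 : ((j + 1 : ℕ) : ℤ) < n := by exact_mod_cast hj
    obtain ⟨o1, o2⟩ := dist_outer hn d h0 h1.le
    obtain ⟨i1, i2⟩ := dist_inner hn d h0 h1
    have i3 := i2 (by positivity)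
    exact side_parity d _ (card_used _) (unused_of_nbr hc (by omega))
      (unused_of_nbr hc (by omega)) (used_of_nbr hc ht (by omega))
      (used_of_nbr hc ht (by omega))

/-- At a corner exactly one of the two lateral edges is used. -/
theorem corner {n : ℕ} (hn : 1 ≤ n) (hr : M.r = n + 1) (d : Fin 6) :
    (d + 4 ∈ used (M.tile (P n d 0)) ↔ d + 2 ∉ used (M.tile (P n d 0))) := by
  obtain ⟨o1, o2⟩ := dist_outer hn d le_rfl (by positivity)
  obtain ⟨i1, i2⟩ := dist_inner hn d le_rfl (by exact_mod_cast hn)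
  have o3 := dist_corner hn d
  exact corner_parity d _ (card_used _) (unused_of_nbr hc (by omega))
    (unused_of_nbr hc (by omega)) (unused_of_nbr hc (by omega))
    (used_of_nbr hc ht (by omega))

theorem alternate {n : ℕ} (hn : 1 ≤ n) (hr : M.r = n + 1) (d : Fin 6) :
    (d + 1 + 2 ∈ used (M.tile (P n (d + 1) 0)) ↔ d + 2 ∉ used (M.tile (P n d 0))) := by
  have h1 := corner hc ht hn hr (d + 1)
  have e1 : nbr (P n d ((n - 1 : ℕ) : ℤ)) (d + 2) = P n (d + 1) 0 := by
    rw [nbr_P_next, ← P_last]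
    congr 1
    omega
  have h2 := side_all hc ht hn hr d (n - 1) (by omega)
  rw [used_iff_nbr hc (p := P n d ((n - 1 : ℕ) : ℤ)) (a := d + 2), e1] at h2
  rw [add23'] at h2
  rw [← h2, h1]
  simp

end

end Q174.HX
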