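import Pool.Agent.Q174.MD.Defs

/-!
# Hexagonal knot mosaics

Knot diagrams on the sphere (`Q174.HF.Diagram`), Reidemeister moves (`Q174.HF.Diagram.Move`)
and the relation `Q174.HF.Diagram.SameKnot` of representing the same knot are defined in
`Pool.Agent.Q174.HF.Defs` and `Pool.Agent.Q174.MD.Defs`.
-/

set_option autoImplicit false

namespace Q174.HX

open Q174.HF

/-- A tile of the tiling of the plane by regular hexagons: the tile `(x, y)` has its centre at
`x • u + y • w`, where `u` and `w` are the vectors from the centre of the tile `(0, 0)` to the
centres of two tiles adjacent to it and to each other (`w` is `u` turned by 60 degrees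
counterclockwise). -/
abbrev Tile : Type := ℤ × ℤ

/-- The edges of a tile are numbered `0, 1, 2, 3, 4, 5` counterclockwise; the tile on the other
side of the edge `a` of the tile `p` is `p + dir a`, and the common edge is the edge `a + 3` of
this tile. -/
def dir : Fin 6 → Tile := ![(1, 0), (0, 1), (-1, 1), (-1, 0), (0, -1), (1, -1)]

/-- The tile adjacent to `p` at the edge `a` of `p`. -/
def nbr (p : Tile) (a : Fin 6) : Tile := p + dir a

/-- The tile-distance of a tile from the centre tile `(0, 0)`. -/
def dist (p : Tile) : ℕ := max p.1.natAbs (max p.2.natAbs (p.1 + p.2).natAbs)

/-- The cyclic order of four edges is `a, b, c, d` (counterclockwise). -/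
def Cyclic (a b c d : Fin 6) : Prop :=
  0 < (b - a).val ∧ (b - a).val < (c - a).val ∧ (c - a).val < (d - a).val

/-- A drawing on a hexagonal tile, up to isotopy of the tile: arcs joining midpoints of edges,
two arcs crossing once if their endpoints interlace and not at all otherwise.

A crossing of the arc from `a` to `a'` with the arc from `b` to `b'`, where the cyclic order is
`a, b, a', b'`, has the four half-edges `(a, b), (b, a'), (a', b'), (b', a)`, in counterclockwise
order; they point in the directions of `a`, `b`, `a'`, `b'`, respectively. -/
structure Drawing where
  /-- If `join a = b ≠ a`, then an arc joins the midpoints of the edges `a` and `b`; if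
  `join a = a`, then the midpoint of the edge `a` is not a connection point. -/
  join : Fin 6 → Fin 6
  join_join : ∀ a, join (join a) = a
  /-- `top a b = true`: the half-edge `(a, b)` belongs to the arc passing over. -/
  top : Fin 6 → Fin 6 → Bool
  top_rot : ∀ a b, Cyclic a b (join a) (join b) → top b (join a) = !top a b
  /-- Only relevant if three arcs cross pairwise (they join opposite edges and form a small
  triangle).  There are two such drawings: for `odd = false` the crossings lie near the corners
  between the edges 0, 1, between the edges 2, 3 and between the edges 4, 5; for `odd = true`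
  they lie near the corners between the edges 1, 2, between the edges 3, 4 and between the
  edges 5, 0. -/
  odd : Bool

namespace Drawing

variable (T : Drawing)

/-- `(a, b)` is a half-edge at a crossing: the arcs ending at `a` and `b` cross, and `b` is the
first of the two ends of the second arc counterclockwise from `a`. -/
def Cross (a b : Fin 6) : Prop := Cyclic a b (T.join a) (T.join b)

/-- For half-edges `(a, b)` and `(a, c)`, both on the arc ending at `a` and pointing to `a`:
the crossing of `(a, b)` is nearer to the end `a` of the arc than the crossing of `(a, c)`.  If
the arcs ending at `b` and `c` do not cross each other, this means that `b` comes before `c`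
counterclockwise from `a`.  If they cross, then the three arcs cross pairwise and `b`, `c` are
`a + 1`, `a + 2`. -/
def Nearer (a b c : Fin 6) : Prop :=
  (T.Cross b c ∨ T.Cross c b → (b = a + 1 ↔ (a.val % 2 = 0 ↔ T.odd = false))) ∧
    (¬ (T.Cross b c ∨ T.Cross c b) → (b - a).val < (c - a).val)

/-- The drawing is a triple-crossing tile. -/
def IsTriple : Prop := ∀ a, T.join a = a + 3

end Drawing

/-- A hexagonal `r`-mosaic.  For convenience the tiles outside the board are drawn, too, but
they are blank. -/
structure Mosaic where
  /-- the board consists of the tiles at distance at most `r - 1` from the centre tile -/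
  r : ℕ
  two_le : 2 ≤ r
  /-- the drawing carried by a tile -/
  tile : Tile → Drawing
  blank : ∀ p, r ≤ dist p → ∀ a, (tile p).join a = a

namespace Mosaic

variable (M : Mosaic)

/-- The mosaic is suitably connected: every connection point of a tile coincides with a
connection point of the adjacent tile.  (So there is none on the outer edges of the board.) -/
def SuitablyConnected : Prop :=
  ∀ p a, (M.tile p).join a ≠ a ↔ (M.tile (nbr p a)).join (a + 3) ≠ a + 3

/-- Every interior tile (at distance at most `r - 2` from the centre tile) is a triple-crossing
tile. -/
def InteriorTriple : Prop := ∀ p, dist p + 2 ≤ M.r → (M.tile p).IsTriple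

/-- The link diagram drawn on the mosaic has exactly one component: there are arcs, and a
nonempty set of ends of arcs which contains with an end of an arc `(p, a)` (the connection point
of the tile `p` on its edge `a`) the other end of the arc and the same connection point seen from
the adjacent tile, contains all ends of arcs. -/
def OneComponent : Prop :=
  (∃ p a, (M.tile p).join a ≠ a) ∧
  ∀ S : Set (Tile × Fin 6), (∃ p a, (M.tile p).join a ≠ a ∧ (p, a) ∈ S) →
    (∀ p a, (p, a) ∈ S → (p, (M.tile p).join a) ∈ S) →
    (∀ p a, (M.tile p).join a ≠ a → (p, a) ∈ S → (nbr p a, a + 3) ∈ S) →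
    ∀ p a, (M.tile p).join a ≠ a → (p, a) ∈ S

/-- The half-edges at the crossings of the mosaic: `(p, a, b)` is the half-edge `(a, b)` at a
crossing on the tile `p`. -/
abbrev HalfEdge : Type := Tile × Fin 6 × Fin 6

/-- `h` is a half-edge at a crossing of the mosaic. -/
def IsHalfEdge (h : HalfEdge) : Prop := (M.tile h.1).Cross h.2.1 h.2.2

/-- The next half-edge at the same crossing, counterclockwise. -/
def turn (h : HalfEdge) : HalfEdge := (h.1, h.2.2, (M.tile h.1).join h.2.1)

/-- The half-edge belongs to the strand passing over at its crossing. -/
def Top (h : HalfEdge) : Prop := (M.tile h.1).top h.2.1 h.2.2 = true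

/-- Entering the tile `p` through its edge `a`, one arrives along the half-edge `h` at the first
crossing: if there is a crossing on the arc of `p` ending at `a`, then it is the crossing nearest
to `a`, otherwise one continues on the tile adjacent at the other end of this arc. -/
inductive Arrive (M : Mosaic) : Tile → Fin 6 → HalfEdge → Prop
  | cross (p : Tile) (a b : Fin 6) : (M.tile p).Cross a b →
      (∀ c, (M.tile p).Cross a c → c ≠ b → (M.tile p).Nearer a b c) → Arrive M p a (p, a, b)
  | pass (p : Tile) (a : Fin 6) (h : HalfEdge) : (∀ c, ¬ (M.tile p).Cross a c) →
      Arrive M (nbr p ((M.tile p).join a)) ((M.tile p).join a + 3) h → Arrive M p a h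

/-- Leaving a crossing along the first half-edge one arrives at the next crossing along the
second half-edge.  Either the next crossing is on the same arc, or the arc has no further
crossing in this direction and one leaves the tile. -/
inductive Edge (M : Mosaic) : HalfEdge → HalfEdge → Prop
  | inside (p : Tile) (a b c : Fin 6) : (M.tile p).Cross a c → (M.tile p).Nearer a c b →
      (∀ d, (M.tile p).Cross a d → (M.tile p).Nearer a d b → d ≠ c →
        (M.tile p).Nearer a d c) →
      Edge M (p, a, b) (p, (M.tile p).join a, (M.tile p).join c)
  | leave (p : Tile) (a b : Fin 6) (h : HalfEdge) :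
      (∀ c, (M.tile p).Cross a c → c ≠ b → (M.tile p).Nearer a b c) →
      Arrive M (nbr p a) (a + 3) h → Edge M (p, a, b) h

/-- `D` is the diagram drawn on the mosaic. -/
def IsDiagram (D : Diagram) : Prop :=
  ∃ φ : Dart D.n → HalfEdge, Function.Injective φ ∧
    (∀ h, h ∈ Set.range φ ↔ M.IsHalfEdge h) ∧
    (∀ d, φ (rot d) = M.turn (φ d)) ∧
    (∀ d, IsOver d ↔ M.Top (φ d)) ∧
    ∀ d, M.Edge (φ d) (φ (D.opp d))

/-- The mosaic realizes the knot with the diagram `K`: it is suitably connected, its diagram has
one component and is a diagram of this knot. -/
def Realizes (K : Diagram) : Prop :=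
  M.SuitablyConnected ∧ M.OneComponent ∧ ∃ D, M.IsDiagram D ∧ K.SameKnot D

end Mosaic

end Q174.HX
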