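import Pool.Agent.Q174.HX.Col

/-! # Colourings modulo 5: the Reidemeister moves -/

set_option autoImplicit false

namespace Q174.HX

open Q174.HF Q174.HF.Diagram

theorem thru_ne {n : ℕ} (d : Dart n) : thru d ≠ d := by
  obtain ⟨v, k⟩ := d
  simp only [thru, ne_eq, Prod.mk.injEq, true_and]
  revert k; decide

theorem thru_ne_rot {n : ℕ} (d : Dart n) : thru d ≠ rot d := by
  obtain ⟨v, k⟩ := d
  simp only [thru, rot, ne_eq, Prod.mk.injEq, true_and]
  revert k; decide

theorem thru_rot {n : ℕ} (d : Dart n) : thru (rot d) = rot (thru d) := by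
  obtain ⟨v, k⟩ := d
  simp only [thru, rot, Prod.mk.injEq, true_and]
  revert k; decide

theorem rot_rot {n : ℕ} (d : Dart n) : rot (rot d) = thru d := (thru_eq d).symm

theorem rot_rotBack {n : ℕ} (d : Dart n) : rot (rotBack d) = d := by
  obtain ⟨v, k⟩ := d
  simp only [rotBack, rot, Prod.mk.injEq, true_and]
  revert k; decide

theorem isOver_rot {n : ℕ} (d : Dart n) : IsOver (rot d) ↔ ¬ IsOver d := by
  obtain ⟨v, k⟩ := d
  simp only [IsOver, rot]
  revert k; decide

theorem four {n : ℕ} {a d : Dart n} (h : a.1 = d.1) :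
    a = d ∨ a = rot d ∨ a = thru d ∨ a = thru (rot d) := by
  obtain ⟨v, k⟩ := a
  obtain ⟨w, l⟩ := d
  simp only at h
  subst h
  simp only [thru, rot, Prod.mk.injEq, true_and]
  revert k l; decide

theorem ne_of_fst {n : ℕ} {a b : Dart n} (h : a.1 ≠ b.1) : a ≠ b := fun e => h (by rw [e])

/-! ### First move -/

theorem col_R1 {D E : Diagram} (h : R1 D E) : HasCol D ↔ HasCol E := by
  obtain ⟨d, hd, he⟩ := h
  rw [← erase_col he]
  constructor
  · rintro ⟨c, hc, hne⟩
    refine ⟨c, ⟨hc.opp, ?_, fun a _ h => hc.top a h, fun a _ h => hc.bot a h⟩, hne⟩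
    have h0 : c (rot d) = c d := by rw [← hd]; exact hc.opp d
    have h1 : c (thru d) = c d := by
      by_cases ho : IsOver d
      · exact hc.top d ho
      · rw [hc.bot d ho, h0]; ring
    have h2 : c (thru (rot d)) = c (rot d) := by
      by_cases ho : IsOver d
      · rw [hc.bot (rot d) (fun h => ((isOver_rot d).1 h) ho), rot_rot, h1, h0]; ring
      · exact hc.top (rot d) ((isOver_rot d).2 ho)
    intro a ha
    rcases four (Set.mem_singleton_iff.1 ha) with rfl | rfl | rfl | rfl
    · exact h1
    · exact h2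
    · rw [thru_thru, h1]
    · rw [thru_thru, h2]
  · rintro ⟨F, hF, hne⟩
    refine ⟨F, ⟨hF.opp, fun a h => ?_, fun a h => ?_⟩, hne⟩
    · by_cases ha : a.1 ∈ ({d.1} : Set (Fin D.n))
      · exact hF.pass a ha
      · exact hF.top a ha h
    · by_cases ha : a.1 ∈ ({d.1} : Set (Fin D.n))
      · have hm : ∀ b : Dart D.n, b.1 = d.1 → F (thru b) = F b := fun b hb => hF.pass b hb
        have h0 : F (rot d) = F d := by rw [← hd]; exact hF.opp d
        have h1 : F (rot a) = F a := by
          rcases four (Set.mem_singleton_iff.1 ha) with rfl | rfl | rfl | rfl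
          · exact h0
          · rw [rot_rot, hm _ rfl, h0]
          · rw [← thru_rot, hm (rot d) rfl, h0, hm d rfl]
          · rw [← thru_rot, rot_rot, thru_thru, hm (rot d) rfl, h0]
        rw [hF.pass a ha, h1]
        ring
      · exact hF.bot a ha h

/-! ### Second move -/

theorem col_R2 {D E : Diagram} (h : R2 D E) : HasCol D ↔ HasCol E := by
  obtain ⟨x, y, hxy, hyx, hne, hx, hx', he⟩ := h
  rw [← erase_col he]
  have ox : D.opp x = rot y := by
    rw [← hxy, Diagram.next, rot_rotBack]
  have oy : D.opp y = rot x := by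
    rw [← hyx, Diagram.next, rot_rotBack]
  have orx : D.opp (rot x) = y := by rw [← oy, D.opp_opp]
  have ory : D.opp (rot y) = x := by rw [← ox, D.opp_opp]
  have hy' : IsOver (rot y) := by rwa [← ox]
  have hy : ¬ IsOver y := fun h => (isOver_rot y).1 hy' h
  have hrx : ¬ IsOver (rot x) := fun h => (isOver_rot x).1 h hx
  -- distinctness
  have hne' : y.1 ≠ x.1 := hne.symm
  have n1 : x ≠ y ∧ x ≠ rot x := ⟨ne_of_fst hne, (rot_ne x).symm⟩
  have n2 : thru x ≠ y ∧ thru x ≠ rot x := ⟨ne_of_fst hne, thru_ne_rot x⟩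
  have n3 : thru (rot x) ≠ y ∧ thru (rot x) ≠ rot x := ⟨ne_of_fst hne, thru_ne _⟩
  have n4 : rot y ≠ y ∧ rot y ≠ rot x := ⟨rot_ne y, ne_of_fst hne'⟩
  have n5 : thru y ≠ y ∧ thru y ≠ rot x := ⟨thru_ne y, ne_of_fst hne'⟩
  have n6 : thru (rot y) ≠ y ∧ thru (rot y) ≠ rot x := by
    refine ⟨fun h => ?_, ne_of_fst hne'⟩
    have h2 := congrArg thru h
    rw [thru_thru] at h2
    exact thru_ne_rot y h2.symm
  constructor
  · rintro ⟨c, hc, hnc⟩
    have c1 : c (rot y) = c x := by rw [← ox, hc.opp]
    have c2 : c (rot x) = c y := by rw [← oy, hc.opp]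
    have c3 : c (thru x) = c x := hc.top x hx
    have c4 : c (thru (rot y)) = c x := by rw [hc.top _ hy', c1]
    have c5 : c (thru y) = 2 * c x - c y := by rw [hc.bot y hy, c1]
    have c6 : c (thru (rot x)) = 2 * c x - c y := by
      rw [hc.bot _ hrx, rot_rot, c3, c2]
    classical
    set F : Dart D.n → ZMod 5 := fun a => if a = y ∨ a = rot x then c (thru y) else c a with hFd
    have Fy : F y = c (thru y) := by simp [hFd]
    have Frx : F (rot x) = c (thru y) := by simp [hFd]
    have Fo : ∀ a, a ≠ y ∧ a ≠ rot x → F a = c a := by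
      intro a ha
      simp [hFd, ha.1, ha.2]
    have hout : ∀ a : Dart D.n, a.1 ∉ ({x.1, y.1} : Set (Fin D.n)) → F a = c a := by
      intro a ha
      refine Fo a ⟨fun h => ha ?_, fun h => ha ?_⟩
      · rw [h]; exact Or.inr rfl
      · rw [h]; exact Or.inl rfl
    refine ⟨F, ⟨fun a => ?_, fun a ha => ?_, fun a ha h => ?_, fun a ha h => ?_⟩, ?_⟩
    · by_cases h1 : a = y
      · rw [h1, oy, Fy, Frx]
      · by_cases h2 : a = rot x
        · rw [h2, orx, Fy, Frx]
        · rw [Fo a ⟨h1, h2⟩, Fo (D.opp a) ⟨fun h => h2 ?_, fun h => h1 ?_⟩, hc.opp]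
          · rw [← D.opp_opp a, h, oy]
          · rw [← D.opp_opp a, h, orx]
    · rcases ha with ha | ha
      · rcases four ha with rfl | rfl | rfl | rfl
        · rw [Fo _ n2, Fo _ n1, c3]
        · rw [Fo _ n3, Frx, c6, c5]
        · rw [thru_thru, Fo _ n2, Fo _ n1, c3]
        · rw [thru_thru, Fo _ n3, Frx, c6, c5]
      · rcases four (Set.mem_singleton_iff.1 ha) with rfl | rfl | rfl | rfl
        · rw [Fo _ n5, Fy]
        · rw [Fo _ n6, Fo _ n4, c4, c1]
        · rw [thru_thru, Fo _ n5, Fy]
        · rw [thru_thru, Fo _ n6, Fo _ n4, c4, c1]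
    · rw [hout a ha, hout (thru a) ha, hc.top a h]
    · rw [hout a ha, hout (thru a) ha, hout (rot a) ha, hc.bot a h]
    · by_contra hcon
      push Not at hcon
      obtain ⟨d, e, hde⟩ := hnc
      have hk : ∀ a, c a = F x := by
        have hxx : c x = F x := (Fo x n1).symm
        have hyy : c y = F x := by
          have h1 : F y = F x := hcon _ _
          rw [Fy, c5, ← hxx] at h1
          rw [← hxx]
          linear_combination -h1
        intro a
        by_cases h1 : a = y
        · rw [h1, hyy]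
        · by_cases h2 : a = rot x
          · rw [h2, c2, hyy]
          · rw [← Fo a ⟨h1, h2⟩]
            exact hcon _ _
      exact hde (by rw [hk, hk])
  · rintro ⟨F, hF, hnc⟩
    have px : ∀ a : Dart D.n, a.1 = x.1 → F (thru a) = F a := fun a ha => hF.pass a (Or.inl ha)
    have py : ∀ a : Dart D.n, a.1 = y.1 → F (thru a) = F a := fun a ha => hF.pass a (Or.inr ha)
    have c1 : F (rot y) = F x := by rw [← ox, hF.opp]
    have c2 : F (rot x) = F y := by rw [← oy, hF.opp]
    classical
    set c : Dart D.n → ZMod 5 := fun a => if a = y ∨ a = rot x then 2 * F x - F y else F a with hcd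
    have Cy : c y = 2 * F x - F y := by simp [hcd]
    have Crx : c (rot x) = 2 * F x - F y := by simp [hcd]
    have Co : ∀ a, a ≠ y ∧ a ≠ rot x → c a = F a := by
      intro a ha
      simp [hcd, ha.1, ha.2]
    have hout : ∀ a : Dart D.n, a.1 ∉ ({x.1, y.1} : Set (Fin D.n)) → c a = F a := by
      intro a ha
      refine Co a ⟨fun h => ha ?_, fun h => ha ?_⟩
      · rw [h]; exact Or.inr rfl
      · rw [h]; exact Or.inl rfl
    refine ⟨c, ⟨fun a => ?_, fun a h => ?_, fun a h => ?_⟩, ?_⟩
    · by_cases h1 : a = y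
      · rw [h1, oy, Cy, Crx]
      · by_cases h2 : a = rot x
        · rw [h2, orx, Cy, Crx]
        · rw [Co a ⟨h1, h2⟩, Co (D.opp a) ⟨fun h => h2 ?_, fun h => h1 ?_⟩, hF.opp]
          · rw [← D.opp_opp a, h, oy]
          · rw [← D.opp_opp a, h, orx]
    · by_cases ha : a.1 ∈ ({x.1, y.1} : Set (Fin D.n))
      · rcases ha with ha | ha
        · rcases four ha with rfl | rfl | rfl | rfl
          · rw [Co _ n2, Co _ n1, px _ rfl]
          · exact absurd h hrx
          · rw [thru_thru, Co _ n2, Co _ n1, px _ rfl]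
          · rw [isOver_thru] at h
            exact absurd h hrx
        · rcases four (Set.mem_singleton_iff.1 ha) with rfl | rfl | rfl | rfl
          · exact absurd h hy
          · rw [Co _ n6, Co _ n4, py (rot y) rfl]
          · rw [isOver_thru] at h
            exact absurd h hy
          · rw [thru_thru, Co _ n6, Co _ n4, py (rot y) rfl]
      · rw [hout a ha, hout (thru a) ha, hF.top a ha h]
    · by_cases ha : a.1 ∈ ({x.1, y.1} : Set (Fin D.n))
      · rcases ha with ha | ha
        · rcases four ha with rfl | rfl | rfl | rfl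
          · exact absurd hx h
          · rw [Co _ n3, px (rot x) rfl, rot_rot, Co _ n2, px x rfl, Crx, c2]; ring
          · rw [isOver_thru] at h
            exact absurd hx h
          · rw [thru_thru, Crx, ← thru_rot, rot_rot, thru_thru, Co _ n1, Co _ n3, px (rot x) rfl, c2]
        · rcases four (Set.mem_singleton_iff.1 ha) with rfl | rfl | rfl | rfl
          · rw [Co _ n5, Co _ n4, Cy, py a rfl, c1]; ring
          · exact absurd hy' h
          · rw [thru_thru, Cy, ← thru_rot, Co _ n6, Co _ n5, py (rot y) rfl, py y rfl, c1]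
          · rw [isOver_thru] at h
            exact absurd hy' h
      · rw [hout a ha, hout (thru a) ha, hout (rot a) ha, hF.bot a ha h]
    · by_contra hcon
      push Not at hcon
      obtain ⟨d, e, hde⟩ := hnc
      have hk : ∀ a, F a = c x := by
        intro a
        by_cases h1 : a = y
        · rw [h1, ← py y rfl, ← Co _ n5]
          exact hcon _ _
        · by_cases h2 : a = rot x
          · rw [h2, ← px (rot x) rfl, ← Co _ n3]
            exact hcon _ _
          · rw [← Co a ⟨h1, h2⟩]
            exact hcon _ _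
      exact hde (by rw [hk, hk])


/-! ### Third move -/

section third

variable {D : Diagram} {x y z : Dart D.n}

/-- The six half-edges forming the sides of the triangle. -/
def Tri (D : Diagram) (x y z : Dart D.n) : Set (Dart D.n) :=
  {x, D.opp x, y, D.opp y, z, D.opp z}

theorem tri_mem (hxy : D.next x = y) (hyz : D.next y = z) (hzx : D.next z = x) {d : Dart D.n} :
    d ∈ Tri D x y z ↔
      (d = x ∨ d = rot x) ∨ (d = y ∨ d = rot y) ∨ (d = z ∨ d = rot z) := by
  have ox : D.opp x = rot y := by rw [← hxy, Diagram.next, rot_rotBack]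
  have oy : D.opp y = rot z := by rw [← hyz, Diagram.next, rot_rotBack]
  have oz : D.opp z = rot x := by rw [← hzx, Diagram.next, rot_rotBack]
  unfold Tri
  rw [ox, oy, oz]
  simp only [Set.mem_insert_iff, Set.mem_singleton_iff]
  tauto

theorem tri_opp {d : Dart D.n} (hd : d ∈ Tri D x y z) : D.opp d ∈ Tri D x y z := by
  unfold Tri at hd ⊢
  simp only [Set.mem_insert_iff, Set.mem_singleton_iff] at hd ⊢
  rcases hd with rfl | rfl | rfl | rfl | rfl | rfl <;> simp [D.opp_opp]

theorem tri_opp_iff {d : Dart D.n} : D.opp d ∈ Tri D x y z ↔ d ∈ Tri D x y z := by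
  constructor
  · intro h
    have := tri_opp h
    rwa [D.opp_opp] at this
  · exact tri_opp

theorem tri_thru (hxy : D.next x = y) (hyz : D.next y = z) (hzx : D.next z = x)
    (h1 : x.1 ≠ y.1) (h2 : y.1 ≠ z.1) (h3 : z.1 ≠ x.1) {d : Dart D.n} (hd : d ∈ Tri D x y z) :
    thru d ∉ Tri D x y z := by
  rw [tri_mem hxy hyz hzx] at hd ⊢
  have k : ∀ w : Dart D.n, thru (rot w) ≠ w := fun w h => by
    have h2 := congrArg thru h
    rw [thru_thru] at h2
    exact thru_ne_rot w h2.symm
  have aux : ∀ a b : Dart D.n, a.1 ≠ b.1 → ¬ (a = b ∨ a = rot b) := by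
    rintro a b hab (rfl | rfl)
    · exact hab rfl
    · exact hab rfl
  have self : ∀ w : Dart D.n, ¬ (thru w = w ∨ thru w = rot w) := by
    rintro w (h | h)
    · exact thru_ne w h
    · exact thru_ne_rot w h
  have self' : ∀ w : Dart D.n, ¬ (thru (rot w) = w ∨ thru (rot w) = rot w) := by
    rintro w (h | h)
    · exact k w h
    · exact thru_ne _ h
  rcases hd with (rfl | rfl) | (rfl | rfl) | (rfl | rfl)
  · rintro (h | h | h)
    · exact self _ h
    · exact aux _ _ (by exact h1) h
    · exact aux _ _ (by exact h3.symm) h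
  · rintro (h | h | h)
    · exact self' _ h
    · exact aux _ _ (by exact h1) h
    · exact aux _ _ (by exact h3.symm) h
  · rintro (h | h | h)
    · exact aux _ _ (by exact h1.symm) h
    · exact self _ h
    · exact aux _ _ (by exact h2) h
  · rintro (h | h | h)
    · exact aux _ _ (by exact h1.symm) h
    · exact self' _ h
    · exact aux _ _ (by exact h2) h
  · rintro (h | h | h)
    · exact aux _ _ (by exact h3) h
    · exact aux _ _ (by exact h2.symm) h
    · exact self _ h
  · rintro (h | h | h)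
    · exact aux _ _ (by exact h3) h
    · exact aux _ _ (by exact h2.symm) h
    · exact self' _ h

open Classical in
theorem leg_of_mem {T : Set (Dart D.n)} {d : Dart D.n} (h : thru d ∈ T) :
    D.leg T d = D.opp (thru d) := by
  unfold Diagram.leg
  rw [if_pos h]

open Classical in
theorem leg_of_notMem {T : Set (Dart D.n)} {d : Dart D.n} (h : thru d ∉ T) : D.leg T d = d := by
  unfold Diagram.leg
  rw [if_neg h]

end third

theorem R3_symm {D E : Diagram} (h : R3 D E) : R3 E D := by
  obtain ⟨x, y, z, hxy, hyz, hzx, h1, h2, h3, hx, hx', φ, hrot, hover, ha, hb⟩ := h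
  change ∀ d ∈ Tri D x y z, _ at ha
  change ∀ d ∉ Tri D x y z, E.opp (φ (D.leg (Tri D x y z) d)) =
    φ (D.leg (Tri D x y z) (D.opp d)) at hb
  have hdis : ∀ d, d ∈ Tri D x y z → thru d ∉ Tri D x y z :=
    fun d hd => tri_thru hxy hyz hzx h1 h2 h3 hd
  have hthru : ∀ d, φ (thru d) = thru (φ d) := by
    intro d
    rw [thru_eq, thru_eq, hrot, hrot]
  have hback : ∀ d, φ (rotBack d) = rotBack (φ d) := by
    intro d
    rw [rotBack_eq, rotBack_eq, hrot, hrot, hrot]
  have hfst : ∀ a b : Dart D.n, (φ a).1 = (φ b).1 → a.1 = b.1 := by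
    intro a b h
    rcases four h with h | h | h | h
    · rw [φ.injective h]
    · rw [← hrot] at h
      rw [φ.injective h, rot_fst]
    · rw [← hthru] at h
      rw [φ.injective h, thru_fst]
    · rw [← hrot, ← hthru] at h
      rw [φ.injective h, thru_fst, rot_fst]
  have hsr : ∀ d, φ.symm (rot d) = rot (φ.symm d) := by
    intro d
    apply φ.injective
    rw [φ.apply_symm_apply, hrot, φ.apply_symm_apply]
  have hst : ∀ d, φ.symm (thru d) = thru (φ.symm d) := by
    intro d
    apply φ.injective
    rw [φ.apply_symm_apply, hthru, φ.apply_symm_apply]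
  have mx : x ∈ Tri D x y z := by unfold Tri; simp
  have my : y ∈ Tri D x y z := by unfold Tri; simp
  have mz : z ∈ Tri D x y z := by unfold Tri; simp
  have hnext : ∀ d ∈ Tri D x y z, E.next (φ (thru d)) = φ (thru (D.next d)) := by
    intro d hd
    unfold Diagram.next
    rw [ha d hd, ← hback, rotBack_thru]
  -- the triangle of `E`
  have hT' : ∀ a, φ a ∈ Tri E (φ (thru x)) (φ (thru y)) (φ (thru z)) ↔
      thru a ∈ Tri D x y z := by
    intro a
    unfold Tri
    rw [ha x mx, ha y my, ha z mz]
    simp only [Set.mem_insert_iff, Set.mem_singleton_iff, φ.injective.eq_iff]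
    have e : ∀ b : Dart D.n, a = thru b ↔ thru a = b := by
      intro b
      constructor
      · rintro rfl; exact thru_thru b
      · rintro rfl; exact (thru_thru a).symm
    simp only [e]
  -- legs
  have hleg2 : ∀ a, (a ∈ Tri D x y z →
      E.leg (Tri E (φ (thru x)) (φ (thru y)) (φ (thru z))) (φ a) = φ (thru (D.opp a))) ∧
      (a ∉ Tri D x y z →
      E.leg (Tri E (φ (thru x)) (φ (thru y)) (φ (thru z))) (φ a) = φ a) := by
    intro a
    constructor
    · intro h
      have h4 : thru (φ a) ∈ Tri E (φ (thru x)) (φ (thru y)) (φ (thru z)) := by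
        rw [← hthru, hT', thru_thru]
        exact h
      rw [leg_of_mem h4, ← hthru, ha a h]
    · intro h
      have h4 : thru (φ a) ∉ Tri E (φ (thru x)) (φ (thru y)) (φ (thru z)) := by
        rw [← hthru, hT', thru_thru]
        exact h
      rw [leg_of_notMem h4]
  have hback2 : ∀ g, g ∉ Tri D x y z →
      E.leg (Tri E (φ (thru x)) (φ (thru y)) (φ (thru z))) (φ (D.leg (Tri D x y z) g)) =
        φ g := by
    intro g hg
    by_cases h : thru g ∈ Tri D x y z
    · rw [leg_of_mem h, (hleg2 _).1 (tri_opp h), D.opp_opp, thru_thru]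
    · rw [leg_of_notMem h, (hleg2 _).2 hg]
  refine ⟨φ (thru x), φ (thru y), φ (thru z), ?_, ?_, ?_, ?_, ?_, ?_, ?_, ?_, φ.symm, hsr,
    ?_, ?_, ?_⟩
  · rw [hnext x mx, hxy]
  · rw [hnext y my, hyz]
  · rw [hnext z mz, hzx]
  · exact fun h => h1 (hfst (thru x) (thru y) h)
  · exact fun h => h2 (hfst (thru y) (thru z) h)
  · exact fun h => h3 (hfst (thru z) (thru x) h)
  · rw [hover, isOver_thru]; exact hx
  · rw [ha x mx, hover, isOver_thru]; exact hx'
  · intro d
    rw [← hover, φ.apply_symm_apply]
  · change ∀ d ∈ Tri E (φ (thru x)) (φ (thru y)) (φ (thru z)), _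
    intro d hd
    obtain ⟨a, rfl⟩ := φ.surjective d
    have hd' := (hT' a).1 hd
    have h4 := ha (thru a) hd'
    rw [thru_thru] at h4
    rw [h4, hst, hst, φ.symm_apply_apply, φ.symm_apply_apply, thru_thru]
  · change ∀ d ∉ Tri E (φ (thru x)) (φ (thru y)) (φ (thru z)),
      D.opp (φ.symm (E.leg (Tri E (φ (thru x)) (φ (thru y)) (φ (thru z))) d)) =
        φ.symm (E.leg (Tri E (φ (thru x)) (φ (thru y)) (φ (thru z))) (E.opp d))
    intro d hd
    obtain ⟨a, rfl⟩ := φ.surjective d
    have hd' : thru a ∉ Tri D x y z := fun h => hd ((hT' a).2 h)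
    by_cases hm : a ∈ Tri D x y z
    · have hm' : thru (D.opp a) ∉ Tri D x y z := hdis _ (tri_opp hm)
      have h4 := hb (thru (D.opp a)) hm'
      have h5 : thru (thru (D.opp a)) ∈ Tri D x y z := by rw [thru_thru]; exact tri_opp hm
      rw [leg_of_mem h5, thru_thru, D.opp_opp] at h4
      rw [(hleg2 a).1 hm, φ.symm_apply_apply, h4, hback2 _ (fun h => hm' (tri_opp_iff.1 h)),
        φ.symm_apply_apply]
    · have h4 := hb a hm
      rw [leg_of_notMem hd'] at h4
      rw [(hleg2 a).2 hm, φ.symm_apply_apply, h4, hback2 _ (fun h => hm (tri_opp_iff.1 h)),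
        φ.symm_apply_apply]

end Q174.HX
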