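import Pool.Agent.Q174.HX.Inv

/-! # Colourings modulo 5: the third Reidemeister move and conclusion -/

set_option autoImplicit false

namespace Q174.HX

open Q174.HF Q174.HF.Diagram

theorem col_R3_aux {D E : Diagram} (h : R3 D E) (hD : HasCol D) : HasCol E := by
  obtain ⟨x, y, z, hxy, hyz, hzx, h1, h2, h3, hx, hx', φ, hrot, hover, ha, hb⟩ := h
  obtain ⟨c, hc, hnc⟩ := hD
  change ∀ d ∈ Tri D x y z, _ at ha
  change ∀ d ∉ Tri D x y z, E.opp (φ (D.leg (Tri D x y z) d)) =
    φ (D.leg (Tri D x y z) (D.opp d)) at hb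
  have hdis : ∀ d, d ∈ Tri D x y z → thru d ∉ Tri D x y z :=
    fun d hd => tri_thru hxy hyz hzx h1 h2 h3 hd
  have hthru : ∀ d, φ (thru d) = thru (φ d) := by
    intro d
    rw [thru_eq, thru_eq, hrot, hrot]
  have ox : D.opp x = rot y := by rw [← hxy, Diagram.next, rot_rotBack]
  have oy : D.opp y = rot z := by rw [← hyz, Diagram.next, rot_rotBack]
  have oz : D.opp z = rot x := by rw [← hzx, Diagram.next, rot_rotBack]
  have ory : D.opp (rot y) = x := by rw [← ox, D.opp_opp]
  have orz : D.opp (rot z) = y := by rw [← oy, D.opp_opp]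
  have orx : D.opp (rot x) = z := by rw [← oz, D.opp_opp]
  have hry : IsOver (rot y) := by rwa [← ox]
  have hy : ¬ IsOver y := fun h => (isOver_rot y).1 hry h
  have hrx : ¬ IsOver (rot x) := fun h => (isOver_rot x).1 h hx
  -- old colours
  have e1 : c (rot y) = c x := by rw [← ox, hc.opp]
  have e2 : c (rot z) = c y := by rw [← oy, hc.opp]
  have e3 : c (rot x) = c z := by rw [← oz, hc.opp]
  have e4 : c (thru x) = c x := hc.top x hx
  have e5 : c (thru (rot y)) = c x := by rw [hc.top _ hry, e1]
  have e6 : c (thru (rot x)) = 2 * c x - c z := by rw [hc.bot _ hrx, rot_rot, e4, e3]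
  have e7 : c (thru y) = 2 * c x - c y := by rw [hc.bot y hy, e1]
  -- new colours
  set vx : Fin 4 → ZMod 5 := ![c x, c (thru z), c x, 2 * c x - c (thru z)] with hvx
  set vy : Fin 4 → ZMod 5 := ![c (thru (rot z)), c x, 2 * c x - c (thru (rot z)), c x] with hvy
  set vz : Fin 4 → ZMod 5 := ![c (thru (rot x)), c (thru y), 2 * c x - c (thru z),
    2 * c x - c (thru (rot z))] with hvz
  set C : Dart D.n → ZMod 5 := fun a => if a.1 = x.1 then vx (a.2 - x.2) else
    if a.1 = y.1 then vy (a.2 - y.2) else if a.1 = z.1 then vz (a.2 - z.2) else c a with hC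
  have f0 : ∀ w : Dart D.n, w.2 - w.2 = 0 := fun w => sub_self _
  have f1 : ∀ w : Dart D.n, (rot w).2 - w.2 = 1 := by
    rintro ⟨v, k⟩
    show k + 1 - k = 1
    revert k; decide
  have f2 : ∀ w : Dart D.n, (thru w).2 - w.2 = 2 := by
    rintro ⟨v, k⟩
    show k + 2 - k = 2
    revert k; decide
  have f3 : ∀ w : Dart D.n, (thru (rot w)).2 - w.2 = 3 := by
    rintro ⟨v, k⟩
    show k + 1 + 2 - k = 3
    revert k; decide
  have Cx : ∀ a : Dart D.n, a.1 = x.1 → C a = vx (a.2 - x.2) := by
    intro a ha
    simp only [hC, ha, if_true]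
  have Cy : ∀ a : Dart D.n, a.1 = y.1 → C a = vy (a.2 - y.2) := by
    intro a ha
    simp only [hC, ha, if_true, if_neg h1.symm]
  have Cz : ∀ a : Dart D.n, a.1 = z.1 → C a = vz (a.2 - z.2) := by
    intro a ha
    simp only [hC, ha, if_true, if_neg h3, if_neg h2.symm]
  have Co : ∀ a : Dart D.n, a.1 ≠ x.1 → a.1 ≠ y.1 → a.1 ≠ z.1 → C a = c a := by
    intro a h4 h5 h6
    simp only [hC, if_neg h4, if_neg h5, if_neg h6]
  have Cx0 : C x = c x := by rw [Cx x rfl, f0]; rfl
  have Cx1 : C (rot x) = c (thru z) := by rw [Cx (rot x) rfl, f1]; rfl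
  have Cx2 : C (thru x) = c x := by rw [Cx (thru x) rfl, f2]; rfl
  have Cx3 : C (thru (rot x)) = 2 * c x - c (thru z) := by rw [Cx (thru (rot x)) rfl, f3]; rfl
  have Cy0 : C y = c (thru (rot z)) := by rw [Cy y rfl, f0]; rfl
  have Cy1 : C (rot y) = c x := by rw [Cy (rot y) rfl, f1]; rfl
  have Cy2 : C (thru y) = 2 * c x - c (thru (rot z)) := by rw [Cy (thru y) rfl, f2]; rfl
  have Cy3 : C (thru (rot y)) = c x := by rw [Cy (thru (rot y)) rfl, f3]; rfl
  have Cz0 : C z = c (thru (rot x)) := by rw [Cz z rfl, f0]; rfl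
  have Cz1 : C (rot z) = c (thru y) := by rw [Cz (rot z) rfl, f1]; rfl
  have Cz2 : C (thru z) = 2 * c x - c (thru z) := by rw [Cz (thru z) rfl, f2]; rfl
  have Cz3 : C (thru (rot z)) = 2 * c x - c (thru (rot z)) := by
    rw [Cz (thru (rot z)) rfl, f3]; rfl
  have hmem : ∀ d, d ∈ Tri D x y z ↔
      (d = x ∨ d = rot x) ∨ (d = y ∨ d = rot y) ∨ (d = z ∨ d = rot z) :=
    fun d => tri_mem hxy hyz hzx
  -- crossings not in the triangle
  have hout : ∀ d : Dart D.n, d ∉ Tri D x y z → thru d ∉ Tri D x y z →
      d.1 ≠ x.1 ∧ d.1 ≠ y.1 ∧ d.1 ≠ z.1 := by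
    intro d hd hd'
    have aux : ∀ w : Dart D.n, w ∈ Tri D x y z → rot w ∈ Tri D x y z → d.1 ≠ w.1 := by
      intro w hw hw' h
      rcases four h with h | h | h | h
      · exact hd (by rw [h]; exact hw)
      · exact hd (by rw [h]; exact hw')
      · exact hd' (by rw [h, thru_thru]; exact hw)
      · exact hd' (by rw [h, thru_thru]; exact hw')
    refine ⟨aux x ?_ ?_, aux y ?_ ?_, aux z ?_ ?_⟩ <;> rw [hmem] <;> simp
  -- legs
  have hleg : ∀ d, d ∉ Tri D x y z → C (D.leg (Tri D x y z) d) = c d := by
    intro d hd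
    by_cases h : thru d ∈ Tri D x y z
    · rw [leg_of_mem h]
      have hd' : ∀ w, thru d = w → d = thru w := by
        rintro w rfl
        exact (thru_thru d).symm
      rcases (hmem _).1 h with (h | h) | (h | h) | (h | h)
      · rw [h, hd' _ h, ox, Cy1, e4]
      · rw [h, hd' _ h, orx, Cz0]
      · rw [h, hd' _ h, oy, Cz1]
      · rw [h, hd' _ h, ory, Cx0, e5]
      · rw [h, hd' _ h, oz, Cx1]
      · rw [h, hd' _ h, orz, Cy0]
    · obtain ⟨g1, g2, g3⟩ := hout d hd h
      rw [leg_of_notMem h, Co d g1 g2 g3]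
  refine ⟨fun a => C (φ.symm a), ⟨?_, ?_, ?_⟩, ?_⟩
  · intro a
    obtain ⟨a, rfl⟩ := φ.surjective a
    simp only [φ.symm_apply_apply]
    by_cases hm : thru a ∈ Tri D x y z
    · have h4 := ha (thru a) hm
      rw [thru_thru] at h4
      rw [h4, φ.symm_apply_apply]
      have hd' : ∀ w, thru a = w → a = thru w := by
        rintro w rfl
        exact (thru_thru a).symm
      rcases (hmem _).1 hm with (h | h) | (h | h) | (h | h)
      · rw [h, hd' _ h, ox, Cy3, Cx2]
      · rw [h, hd' _ h, orx, Cz2, Cx3]
      · rw [h, hd' _ h, oy, Cz3, Cy2]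
      · rw [h, hd' _ h, ory, Cx2, Cy3]
      · rw [h, hd' _ h, oz, Cx3, Cz2]
      · rw [h, hd' _ h, orz, Cy2, Cz3]
    · by_cases hm2 : a ∈ Tri D x y z
      · -- `a = leg d` with `d = thru (opp a)`
        have hd : thru (D.opp a) ∉ Tri D x y z := hdis _ (tri_opp hm2)
        have hl : D.leg (Tri D x y z) (thru (D.opp a)) = a := by
          rw [leg_of_mem (by rw [thru_thru]; exact tri_opp hm2), thru_thru, D.opp_opp]
        have h4 := hb _ hd
        have h5 := hleg _ hd
        rw [hl] at h4 h5
        rw [h4, φ.symm_apply_apply, hleg _ (fun h => hd (tri_opp_iff.1 h)), h5, hc.opp]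
      · have h4 := hb _ hm2
        rw [leg_of_notMem hm] at h4
        have h5 := hleg _ hm2
        rw [leg_of_notMem hm] at h5
        rw [h4, φ.symm_apply_apply, hleg _ (fun h => hm2 (tri_opp_iff.1 h)), hc.opp, h5]
  · intro a ho
    obtain ⟨a, rfl⟩ := φ.surjective a
    rw [← hthru]
    simp only [φ.symm_apply_apply]
    rw [hover] at ho
    by_cases g1 : a.1 = x.1
    · rcases four g1 with rfl | rfl | rfl | rfl
      · rw [Cx2, Cx0]
      · exact absurd ho hrx
      · rw [thru_thru, Cx2, Cx0]
      · rw [isOver_thru] at ho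
        exact absurd ho hrx
    · by_cases g2 : a.1 = y.1
      · rcases four g2 with rfl | rfl | rfl | rfl
        · exact absurd ho hy
        · rw [Cy3, Cy1]
        · rw [isOver_thru] at ho
          exact absurd ho hy
        · rw [thru_thru, Cy3, Cy1]
      · by_cases g3 : a.1 = z.1
        · rcases four g3 with rfl | rfl | rfl | rfl
          · rw [Cz2, Cz0, hc.top _ ho, e6]
          · rw [Cz3, Cz1, hc.top _ ho, e2, e7]
          · rw [isOver_thru] at ho
            rw [thru_thru, Cz2, Cz0, hc.top _ ho, e6]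
          · rw [isOver_thru] at ho
            rw [thru_thru, Cz3, Cz1, hc.top _ ho, e2, e7]
        · rw [Co a g1 g2 g3, Co (thru a) g1 g2 g3]
          exact hc.top a ho
  · intro a ho
    obtain ⟨a, rfl⟩ := φ.surjective a
    rw [← hthru, ← hrot]
    simp only [φ.symm_apply_apply]
    rw [hover] at ho
    by_cases g1 : a.1 = x.1
    · rcases four g1 with rfl | rfl | rfl | rfl
      · exact absurd hx ho
      · rw [Cx3, rot_rot, Cx2, Cx1]
      · rw [isOver_thru] at ho
        exact absurd hx ho
      · rw [thru_thru, Cx1, ← thru_rot, rot_rot, thru_thru, Cx0, Cx3]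
        ring
    · by_cases g2 : a.1 = y.1
      · rcases four g2 with rfl | rfl | rfl | rfl
        · rw [Cy2, Cy1, Cy0]
        · exact absurd hry ho
        · rw [thru_thru, Cy0, ← thru_rot, Cy3, Cy2]
          ring
        · rw [isOver_thru] at ho
          exact absurd hry ho
      · by_cases g3 : a.1 = z.1
        · rcases four g3 with rfl | rfl | rfl | rfl
          · have ho' : IsOver (rot a) := (isOver_rot a).2 ho
            have k1 := hc.bot a ho
            rw [Cz2, Cz1, Cz0, k1, e7, e6, e2]
            ring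
          · have ho' : IsOver z := by
              by_contra hcon
              exact ho ((isOver_rot z).2 hcon)
            have k1 := hc.bot (rot z) ho
            rw [rot_rot, hc.top z ho', e2] at k1
            rw [Cz3, rot_rot, Cz2, Cz1, k1, hc.top z ho', e7]
            ring
          · rw [isOver_thru] at ho
            have k1 := hc.bot z ho
            rw [thru_thru, Cz0, ← thru_rot, Cz3, Cz2, k1, hc.top (rot z) ((isOver_rot z).2 ho),
              e6, e2]
            ring
          · rw [isOver_thru] at ho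
            have ho' : IsOver z := by
              by_contra hcon
              exact ho ((isOver_rot z).2 hcon)
            have k1 := hc.bot (rot z) ho
            rw [rot_rot, hc.top z ho', e2] at k1
            rw [thru_thru, Cz1, ← thru_rot, rot_rot, thru_thru, Cz0, Cz3, e6, e7, k1]
            ring
        · rw [Co a g1 g2 g3, Co (thru a) g1 g2 g3, Co (rot a) g1 g2 g3]
          exact hc.bot a ho
  · by_contra hcon
    push Not at hcon
    obtain ⟨d, e, hde⟩ := hnc
    have hC' : ∀ a b, C a = C b := by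
      intro a b
      have := hcon (φ a) (φ b)
      simpa only [φ.symm_apply_apply] using this
    have hk : ∀ a, a ∉ Tri D x y z → c a = C x := by
      intro a h
      rw [← hleg a h]
      exact hC' _ _
    have mx : x ∈ Tri D x y z := by rw [hmem]; simp
    have mrx : rot x ∈ Tri D x y z := by rw [hmem]; simp
    have my : y ∈ Tri D x y z := by rw [hmem]; simp
    have k1 : c x = C x := by rw [← e4]; exact hk _ (hdis x mx)
    have k2 : c z = C x := by
      have h4 := hk _ (hdis (rot x) mrx)
      rw [e6, k1] at h4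
      linear_combination -h4
    have k3 : c y = C x := by
      have h4 := hk _ (hdis y my)
      rw [e7, k1] at h4
      linear_combination -h4
    have hall : ∀ a, c a = C x := by
      intro a
      by_cases h : a ∈ Tri D x y z
      · rcases (hmem _).1 h with (rfl | rfl) | (rfl | rfl) | (rfl | rfl)
        · exact k1
        · rw [e3]; exact k2
        · exact k3
        · rw [e1]; exact k1
        · exact k2
        · rw [e2]; exact k3
      · exact hk a h
    exact hde (by rw [hall, hall])

theorem col_R3 {D E : Diagram} (h : R3 D E) : HasCol D ↔ HasCol E :=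
  ⟨col_R3_aux h, col_R3_aux (R3_symm h)⟩

theorem col_move {D E : Diagram} (h : D.Move E) : HasCol D ↔ HasCol E := by
  rcases h with h | h | h | h | h | h
  · exact col_R1 h
  · exact (col_R1 h).symm
  · exact col_R2 h
  · exact (col_R2 h).symm
  · exact col_R3 h
  · exact (col_R3 h).symm

theorem col_seq {D E : Diagram} (h : Relation.ReflTransGen Diagram.Move D E) :
    HasCol D ↔ HasCol E := by
  induction h with
  | refl => rfl
  | tail _ h ih => exact ih.trans (col_move h)

end Q174.HX
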