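import Pool.Agent.Q174.HX.Defs
import Pool.Agent.Q174.HF.Check

/-! # The figure-eight knot and the trefoil -/

set_option autoImplicit false

namespace Q174.HX

open Q174.HF

/-- The standard diagram of the figure-eight knot (with 4 crossings).  The half-edge number
`4 * v + k` is `(v, k)`; the list gives for every half-edge the number of the other half-edge
of the same edge (PD code `X[4,2,5,1] X[8,6,1,5] X[6,3,7,4] X[2,7,3,8]`). -/
def figureEight : Diagram := mkDiagram 4 [11, 12, 7, 6, 15, 8, 3, 2, 5, 14, 13, 0, 1, 10, 9, 4]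
  [0, 1, 2, 3, 4, 3, 2, 1, 4, 5, 0, 3, 0, 5, 4, 1]
  (by decide) (by decide) (by decide) (by decide) (by decide)

/-- The standard diagram of a trefoil knot (with 3 crossings), coded in the same way. -/
def trefoil : Diagram := mkDiagram 3 [11, 10, 5, 4, 3, 2, 9, 8, 7, 6, 1, 0]
  [0, 1, 2, 3, 2, 1, 4, 3, 4, 1, 0, 3]
  (by decide) (by decide) (by decide) (by decide) (by decide)

end Q174.HX
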