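import Pool.Agent.Q174.HX.Two
import Pool.Agent.Q174.HX.Knots

/-! # Knots on mosaics whose interior tiles are triple-crossing tiles -/

set_option autoImplicit false

namespace Q174.HX

open Q174.HF

/-- a colouring of the figure-eight knot -/
def col8 (d : Dart 4) : ZMod 5 :=
  ((([1, 0, 4, 0, 3, 4, 0, 4, 4, 1, 3, 1, 0, 3, 1, 3] : List ℕ).getD
    (4 * d.1.val + d.2.val) 0 : ℕ) : ZMod 5)

theorem col8_opp : ∀ a : Fin 4, ∀ b : Fin 4,
    col8 (mkOpp 4 [11, 12, 7, 6, 15, 8, 3, 2, 5, 14, 13, 0, 1, 10, 9, 4] (a, b)) =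
      col8 (a, b) := by decide

theorem col8_top : ∀ a : Fin 4, ∀ b : Fin 4, IsOver (a, b) →
    col8 (thru (a, b)) = col8 (a, b) := by decide

theorem col8_bot : ∀ a : Fin 4, ∀ b : Fin 4, ¬ IsOver (a, b) →
    col8 (thru (a, b)) = 2 * col8 (rot (a, b)) - col8 (a, b) := by decide

theorem hasCol_figureEight : HasCol figureEight :=
  ⟨col8, ⟨fun d => col8_opp d.1 d.2, fun d => col8_top d.1 d.2, fun d => col8_bot d.1 d.2⟩,
    ((0, 0) : Dart 4), ((0, 1) : Dart 4), by decide⟩

theorem r_eq_two {M : Mosaic} (hc : M.SuitablyConnected) (ht : M.InteriorTriple)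
    (h1 : M.OneComponent) : M.r = 2 := by
  by_contra hr
  have h2 := M.two_le
  obtain ⟨n, hn⟩ : ∃ n, M.r = n + 1 := ⟨M.r - 1, by omega⟩
  exact not_oneComponent hc ht (n := n) (by omega) hn h1

theorem not_figureEight {M : Mosaic} (ht : M.InteriorTriple) :
    ¬ M.Realizes figureEight := by
  rintro ⟨hc, h1, D, hD, hK⟩
  exact center_diagram hc ht (r_eq_two hc ht h1) hD ((col_seq hK).1 hasCol_figureEight)

/-- The diagram of a mosaic with one interior tile has three crossings. -/
theorem three {M : Mosaic} (hc : M.SuitablyConnected) (ht : M.InteriorTriple)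
    (hr : M.r = 2) {D : Diagram} (hD : M.IsDiagram D) : D.n = 3 := by
  obtain ⟨φ, hinj, hrange, -, -, -⟩ := hD
  have e : Set.range φ = (fun q : Fin 6 × Fin 6 => (((0, 0), q.1, q.2) : Mosaic.HalfEdge)) ''
      {q : Fin 6 × Fin 6 | Cyc0 q.1 q.2} := by
    ext ⟨p, a, b⟩
    rw [hrange]
    simp only [Set.mem_image, Set.mem_setOf_eq, Prod.exists, Prod.mk.injEq]
    constructor
    · intro h
      have h2 := halfEdge_center hc ht hr h
      change p = (0, 0) at h2
      subst h2
      exact ⟨a, b, (center_cross ht hr a b).1 h, rfl, rfl, rfl⟩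
    · rintro ⟨a', b', h, h2, rfl, rfl⟩
      rw [← h2]
      exact (center_cross ht hr a' b').2 h
  have h1 : (Set.range φ).ncard = Nat.card (Dart D.n) := by
    rw [← Set.image_univ, Set.ncard_image_of_injective _ hinj, Set.ncard_univ]
  have h2 : (Set.range φ).ncard = 12 := by
    rw [e, Set.ncard_image_of_injective]
    · have h3 : {q : Fin 6 × Fin 6 | Cyc0 q.1 q.2} =
          ↑(Finset.univ.filter fun q : Fin 6 × Fin 6 => Cyc0 q.1 q.2) := by
        ext; simp
      rw [h3, Set.ncard_coe_finset]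
      decide
    · rintro ⟨a, b⟩ ⟨c, d⟩ h
      simp only [Prod.mk.injEq, true_and] at h
      rw [h.1, h.2]
  rw [h1, Nat.card_eq_fintype_card, Fintype.card_prod, Fintype.card_fin, Fintype.card_fin] at h2
  omega

end Q174.HX
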