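import Pool.Agent.Q174.HX.Main

/-! # The trefoil is realized on the board with one interior tile -/

set_option autoImplicit false

namespace Q174.HX

open Q174.HF

/-- the arc on a corner tile -/
def cj (d a : Fin 6) : Fin 6 :=
  if d.val % 2 = 0 then (if a = d + 3 then d + 4 else if a = d + 4 then d + 3 else a)
  else (if a = d + 3 then d + 2 else if a = d + 2 then d + 3 else a)

def blankD : Drawing where
  join a := a
  join_join _ := rfl
  top _ _ := false
  top_rot := by decide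
  odd := false

def cornerD (d : Fin 6) : Drawing where
  join := cj d
  join_join := by revert d; decide
  top _ _ := false
  top_rot := by
    intro a b h
    exfalso
    revert d a b
    decide
  odd := false

def centerD : Drawing where
  join a := a + 3
  join_join := by decide
  top a b := decide (b = a + 1)
  top_rot := by decide
  odd := false

def tile2 (p : Tile) : Drawing :=
  if p = (0, 0) then centerD else if p = (1, 0) then cornerD 0 else
  if p = (0, 1) then cornerD 1 else if p = (-1, 1) then cornerD 2 else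
  if p = (-1, 0) then cornerD 3 else if p = (0, -1) then cornerD 4 else
  if p = (1, -1) then cornerD 5 else blankD

def board : List Tile := [(0, 0), (1, 0), (0, 1), (-1, 1), (-1, 0), (0, -1), (1, -1)]

theorem tile2_blank {p : Tile} (hp : p ∉ board) (a : Fin 6) : (tile2 p).join a = a := by
  simp only [board, List.mem_cons, List.not_mem_nil, or_false, not_or] at hp
  obtain ⟨h0, h1, h2, h3, h4, h5, h6⟩ := hp
  unfold tile2
  rw [if_neg h0, if_neg h1, if_neg h2, if_neg h3, if_neg h4, if_neg h5, if_neg h6]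
  rfl

theorem dist_board : ∀ p ∈ board, dist p ≤ 1 := by decide

def M2 : Mosaic where
  r := 2
  two_le := le_rfl
  tile := tile2
  blank := by
    intro p hp a
    apply tile2_blank
    intro h
    have := dist_board p h
    omega

instance (T : Drawing) (a b : Fin 6) : Decidable (T.Cross a b) :=
  inferInstanceAs (Decidable (Cyclic _ _ _ _))

instance (T : Drawing) (a b c : Fin 6) : Decidable (T.Nearer a b c) :=
  inferInstanceAs (Decidable (_ ∧ _))

theorem sc_aux : ∀ p ∈ board, ∀ a, (tile2 p).join a ≠ a →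
    (tile2 (nbr p a)).join (a + 3) ≠ a + 3 := by decide

theorem nbr_nbr (p : Tile) (a : Fin 6) : nbr (nbr p a) (a + 3) = p := by
  have h : dir a + dir (a + 3) = 0 := by revert a; decide
  unfold nbr
  rw [add_assoc, h, add_zero]

theorem sc : M2.SuitablyConnected := by
  have one : ∀ p a, (tile2 p).join a ≠ a → (tile2 (nbr p a)).join (a + 3) ≠ a + 3 := by
    intro p a h
    by_cases hp : p ∈ board
    · exact sc_aux p hp a h
    · exact absurd (tile2_blank hp a) h
  intro p a
  refine ⟨one p a, fun h => ?_⟩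
  have h2 := one _ _ h
  rwa [nbr_nbr, e3] at h2

theorem it : M2.InteriorTriple := by
  intro p hp
  have hp' : dist p = 0 := by
    have : dist p + 2 ≤ 2 := hp
    omega
  rw [center_eq hp']
  intro a
  rfl

theorem rr : M2.r = 2 := rfl

/-- the ends of arcs in the order in which they are met on the knot -/
def walk : List (Tile × Fin 6) :=
  [((0, 0), 0), ((0, 0), 3), ((-1, 0), 0), ((-1, 0), 5), ((0, -1), 2), ((0, -1), 1),
   ((0, 0), 4), ((0, 0), 1), ((0, 1), 4), ((0, 1), 3), ((-1, 1), 0), ((-1, 1), 5),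
   ((0, 0), 2), ((0, 0), 5), ((1, -1), 2), ((1, -1), 1), ((1, 0), 4), ((1, 0), 3)]

def wk (i : ℕ) : Tile × Fin 6 := walk.getD i ((0, 0), 0)

theorem wk_even : ∀ i < 9, wk (2 * i + 1) = ((wk (2 * i)).1, (tile2 (wk (2 * i)).1).join (wk (2 * i)).2) := by
  decide

theorem wk_odd : ∀ i < 8, wk (2 * i + 2) = (nbr (wk (2 * i + 1)).1 (wk (2 * i + 1)).2,
    (wk (2 * i + 1)).2 + 3) ∧ (tile2 (wk (2 * i + 1)).1).join (wk (2 * i + 1)).2 ≠ (wk (2 * i + 1)).2 ∧
    (tile2 (wk (2 * i + 2)).1).join (wk (2 * i + 2)).2 ≠ (wk (2 * i + 2)).2 := by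
  decide

theorem wk_all : ∀ p ∈ board, ∀ a, (tile2 p).join a ≠ a → ∃ i < 18, (p, a) = wk i := by
  decide

theorem one : M2.OneComponent := by
  refine ⟨⟨(0, 0), 0, by decide⟩, ?_⟩
  intro S hS h1 h2
  have key : ∀ i < 18, (wk i ∈ S ↔ wk 0 ∈ S) := by
    have c1 : ∀ i < 9, (wk (2 * i + 1) ∈ S ↔ wk (2 * i) ∈ S) := by
      intro i hi
      rw [wk_even i hi]
      constructor
      · intro h
        have h3 := h1 _ _ h
        change (_, (tile2 _).join ((tile2 _).join _)) ∈ S at h3
        rwa [Drawing.join_join] at h3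
      · intro h
        exact h1 _ _ h
    have c2 : ∀ i < 8, (wk (2 * i + 2) ∈ S ↔ wk (2 * i + 1) ∈ S) := by
      intro i hi
      obtain ⟨w1, w2, w3⟩ := wk_odd i hi
      constructor
      · intro h
        have h3 := h2 _ _ w3 h
        rw [w1] at h3
        change (nbr (nbr _ _) (_ + 3), _ + 3 + 3) ∈ S at h3
        rwa [nbr_nbr, e3] at h3
      · intro h
        rw [w1]
        exact h2 _ _ w2 h
    have c3 : ∀ i < 9, (wk (2 * i) ∈ S ↔ wk 0 ∈ S) := by
      intro i
      induction i with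
      | zero => intro _; rfl
      | succ i ih =>
        intro hi
        rw [show 2 * (i + 1) = 2 * i + 2 by ring, c2 i (by omega), c1 i (by omega),
          ih (by omega)]
    intro i hi
    obtain ⟨j, hj | hj⟩ := Nat.even_or_odd' i
    · rw [hj, c3 j (by omega)]
    · rw [hj, c1 j (by omega), c3 j (by omega)]
  have hw : ∀ p a, (tile2 p).join a ≠ a → ∃ i < 18, (p, a) = wk i := by
    intro p a h
    by_cases hp : p ∈ board
    · exact wk_all p hp a h
    · exact absurd (tile2_blank hp a) h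
  obtain ⟨p, a, h3, h4⟩ := hS
  obtain ⟨i, hi, h5⟩ := hw p a h3
  have h0 : wk 0 ∈ S := (key i hi).1 (by rw [← h5]; exact h4)
  intro q b h6
  obtain ⟨j, hj, h7⟩ := hw q b h6
  rw [h7, key j hj]
  exact h0

/-! ### The diagram -/

def A3 (d : Dart 3) : Fin 6 := Fin.ofNat 6 (([4, 0, 1, 3, 0, 2, 3, 5, 2, 4, 5, 1] : List ℕ).getD
  (4 * d.1.val + d.2.val) 0)

def B3 (d : Dart 3) : Fin 6 := Fin.ofNat 6 (([0, 1, 3, 4, 2, 3, 5, 0, 4, 5, 1, 2] : List ℕ).getD
  (4 * d.1.val + d.2.val) 0)

def phi (d : Dart 3) : Mosaic.HalfEdge := ((0, 0), A3 d, B3 d)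

theorem phi_inj : ∀ a : Fin 3, ∀ b : Fin 4, ∀ c : Fin 3, ∀ d : Fin 4,
    A3 (a, b) = A3 (c, d) → B3 (a, b) = B3 (c, d) → ((a, b) : Dart 3) = (c, d) := by decide

theorem phi_cross : ∀ a : Fin 3, ∀ b : Fin 4, (tile2 (0, 0)).Cross (A3 (a, b)) (B3 (a, b)) := by
  decide

theorem phi_surj : ∀ a b, (tile2 (0, 0)).Cross a b → ∃ c : Fin 3, ∃ d : Fin 4,
    A3 (c, d) = a ∧ B3 (c, d) = b := by decide

theorem phi_rot : ∀ a : Fin 3, ∀ b : Fin 4, A3 (rot (a, b)) = B3 (a, b) ∧
    B3 (rot (a, b)) = (tile2 (0, 0)).join (A3 (a, b)) := by decide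

theorem phi_top : ∀ a : Fin 3, ∀ b : Fin 4, IsOver (a, b) ↔
    (tile2 (0, 0)).top (A3 (a, b)) (B3 (a, b)) = true := by decide

/-- the edge of the centre tile which one reaches next through the corner tiles -/
def ee (a : Fin 6) : Fin 6 := if a.val % 2 = 0 then a + 5 else a + 1

def yy (a : Fin 6) : Fin 6 := if a.val % 2 = 0 then a + 1 else a + 5

theorem s1 : ∀ a : Fin 6, nbr (nbr (0, 0) a) ((tile2 (nbr (0, 0) a)).join (a + 3)) =
    dir (ee a) := by decide
theorem s2 : ∀ a : Fin 6, (tile2 (nbr (0, 0) a)).join (a + 3) + 3 = yy a := by decide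
theorem s3 : ∀ a c : Fin 6, ¬ (tile2 (nbr (0, 0) a)).Cross (a + 3) c := by decide
theorem s4 : ∀ a : Fin 6, nbr (dir (ee a)) ((tile2 (dir (ee a))).join (yy a)) = (0, 0) := by
  decide
theorem s5 : ∀ a : Fin 6, (tile2 (dir (ee a))).join (yy a) + 3 = ee a := by decide
theorem s6 : ∀ a c : Fin 6, ¬ (tile2 (dir (ee a))).Cross (yy a) c := by decide
theorem s7 : ∀ a : Fin 6, (tile2 (0, 0)).Cross a (near false a) := by decide
theorem s8 : ∀ a c : Fin 6, (tile2 (0, 0)).Cross a c → c ≠ near false a →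
    (tile2 (0, 0)).Nearer a (near false a) c := by decide
theorem s9 : ∀ a : Fin 6, (tile2 (0, 0)).Nearer a (near false a) (far false a) := by decide
theorem s10 : ∀ a d : Fin 6, (tile2 (0, 0)).Cross a d → (tile2 (0, 0)).Nearer a d (far false a) →
    d ≠ near false a → (tile2 (0, 0)).Nearer a d (near false a) := by decide

theorem edge_out (a : Fin 6) :
    M2.Edge ((0, 0), a, near false a) ((0, 0), ee a, near false (ee a)) := by
  refine Mosaic.Edge.leave _ _ _ _ (s8 a) (Mosaic.Arrive.pass _ _ _ (s3 a) ?_)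
  change M2.Arrive (nbr (nbr (0, 0) a) ((tile2 (nbr (0, 0) a)).join (a + 3)))
    ((tile2 (nbr (0, 0) a)).join (a + 3) + 3) _
  rw [s1, s2]
  refine Mosaic.Arrive.pass _ _ _ (s6 a) ?_
  change M2.Arrive (nbr (dir (ee a)) ((tile2 (dir (ee a))).join (yy a)))
    ((tile2 (dir (ee a))).join (yy a) + 3) _
  rw [s4, s5]
  exact Mosaic.Arrive.cross _ _ _ (s7 _) (s8 _)

theorem edge_in (a : Fin 6) :
    M2.Edge ((0, 0), a, far false a) ((0, 0), a + 3, near false a + 3) :=
  Mosaic.Edge.inside _ _ _ (near false a) (s7 a) (s9 a) (s10 a)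

theorem edge_cases : ∀ a : Fin 3, ∀ b : Fin 4,
    (B3 (a, b) = near false (A3 (a, b)) ∧ A3 (trefoil.opp (a, b)) = ee (A3 (a, b)) ∧
      B3 (trefoil.opp (a, b)) = near false (ee (A3 (a, b)))) ∨
    (B3 (a, b) = far false (A3 (a, b)) ∧ A3 (trefoil.opp (a, b)) = A3 (a, b) + 3 ∧
      B3 (trefoil.opp (a, b)) = near false (A3 (a, b)) + 3) := by decide

theorem isDiagram_trefoil : M2.IsDiagram trefoil := by
  refine ⟨phi, ?_, ?_, ?_, ?_, ?_⟩
  · rintro ⟨a, b⟩ ⟨c, d⟩ h
    simp only [phi, Prod.mk.injEq, true_and] at h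
    exact phi_inj a b c d h.1 h.2
  · rintro ⟨p, a, b⟩
    constructor
    · rintro ⟨⟨c, d⟩, h⟩
      rw [← h]
      exact phi_cross c d
    · intro h
      have h2 := halfEdge_center sc it rr h
      change p = (0, 0) at h2
      subst h2
      obtain ⟨c, d, h3, h4⟩ := phi_surj a b h
      refine ⟨(c, d), ?_⟩
      change ((0, 0), A3 (c, d), B3 (c, d)) = ((0, 0), a, b)
      rw [h3, h4]
  · rintro ⟨a, b⟩
    obtain ⟨h1, h2⟩ := phi_rot a b
    change ((0, 0), A3 (rot (a, b)), B3 (rot (a, b))) =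
      ((0, 0), B3 (a, b), (tile2 (0, 0)).join (A3 (a, b)))
    rw [h1, h2]
  · rintro ⟨a, b⟩
    exact phi_top a b
  · rintro ⟨a, b⟩
    change M2.Edge ((0, 0), A3 (a, b), B3 (a, b))
      ((0, 0), A3 (trefoil.opp (a, b)), B3 (trefoil.opp (a, b)))
    rcases edge_cases a b with ⟨h1, h2, h3⟩ | ⟨h1, h2, h3⟩
    · rw [h1, h2, h3]
      exact edge_out _
    · rw [h1, h2, h3]
      exact edge_in _

theorem realizes_trefoil : M2.Realizes trefoil :=
  ⟨sc, one, trefoil, isDiagram_trefoil, Relation.ReflTransGen.refl⟩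

end Q174.HX
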