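import Pool.Agent.Q174.HX.Big
import Pool.Agent.Q174.HX.Inv3

/-! # The board with one interior tile -/

set_option autoImplicit false

namespace Q174.HX

open Q174.HF

instance (a b c d : Fin 6) : Decidable (Cyclic a b c d) :=
  inferInstanceAs (Decidable (_ ∧ _ ∧ _))

/-- crossing arcs on a triple-crossing tile -/
def Cyc0 (a b : Fin 6) : Prop := Cyclic a b (a + 3) (b + 3)

instance (a b : Fin 6) : Decidable (Cyc0 a b) := inferInstanceAs (Decidable (Cyclic _ _ _ _))

def Near0 (o : Bool) (a b c : Fin 6) : Prop :=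
  (Cyc0 b c ∨ Cyc0 c b → (b = a + 1 ↔ (a.val % 2 = 0 ↔ o = false))) ∧
    (¬ (Cyc0 b c ∨ Cyc0 c b) → (b - a).val < (c - a).val)

instance (o : Bool) (a b c : Fin 6) : Decidable (Near0 o a b c) :=
  inferInstanceAs (Decidable (_ ∧ _))

/-- the nearest crossing -/
def near (o : Bool) (a : Fin 6) : Fin 6 := if (a.val % 2 = 0 ↔ o = false) then a + 1 else a + 2

/-- the other crossing -/
def far (o : Bool) (a : Fin 6) : Fin 6 := if (a.val % 2 = 0 ↔ o = false) then a + 2 else a + 1

theorem g1 : ∀ o a b, Cyc0 a b ↔ b = near o a ∨ b = far o a := by decide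
theorem g2 : ∀ o a c, Cyc0 a c → Near0 o a c (near o a) → False := by decide
theorem g3 : ∀ o a c, Cyc0 a c → Near0 o a c (far o a) → c = near o a := by decide
theorem g4 : ∀ o a, ¬ Near0 o a (far o a) (near o a) := by decide
theorem g5 : ∀ o a, near o a + 3 = far o (a + 3) := by decide
theorem g6 : ∀ o a, near o a ≠ far o a := by decide
theorem g7 : ∀ o a, Cyc0 a (near o a) := by decide
theorem g8 : ∀ o a, Cyc0 a (far o a) := by decide

theorem g9 : ∀ o a, near o a = a + 1 → near o (a + 1) = a + 3 := by decide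
theorem g10 : ∀ o a, near o a = a + 1 → far o (a + 3) = a + 1 + 3 := by decide
theorem g11 : ∀ o a, near o a = a + 1 → far o (a + 4) = a := by decide
theorem g12 : ∀ o a, near o a = a + 1 → near o (a + 2) = a + 2 + 1 := by decide
theorem g13 : ∀ o a, near o a = a + 1 → near o (a + 4) = a + 4 + 1 := by decide
theorem g14 : ∀ o, ∃ a, near o a = a + 1 := by decide
theorem add134 : ∀ a : Fin 6, a + 1 + 3 = a + 4 := by decide
theorem add235 : ∀ a : Fin 6, a + 2 + 3 = a + 5 := by decide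
theorem add213 : ∀ a : Fin 6, a + 2 + 1 = a + 3 := by decide
theorem add415 : ∀ a : Fin 6, a + 4 + 1 = a + 5 := by decide
theorem add112 : ∀ a : Fin 6, a + 1 + 1 = a + 2 := by decide
theorem add314 : ∀ a : Fin 6, a + 3 + 1 = a + 4 := by decide
theorem add516 : ∀ a : Fin 6, a + 5 + 1 = a := by decide

theorem lin_aux : ∀ A B C X Y Z : Fin 5,
    ((X = A ∧ Y = 2 * X - B) ∨ (Y = B ∧ X = 2 * B - A)) →
    ((Z = B ∧ X = 2 * Z - C) ∨ (X = C ∧ Z = 2 * C - B)) →
    ((Y = C ∧ Z = 2 * Y - A) ∨ (Z = A ∧ Y = 2 * A - C)) →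
    B = A ∧ C = A ∧ X = A ∧ Y = A ∧ Z = A := by
  decide +kernel

/-- Colourings of the standard diagrams of the trefoil with arbitrary crossings are constant. -/
theorem lin : ∀ A B C X Y Z : ZMod 5,
    ((X = A ∧ Y = 2 * X - B) ∨ (Y = B ∧ X = 2 * B - A)) →
    ((Z = B ∧ X = 2 * Z - C) ∨ (X = C ∧ Z = 2 * C - B)) →
    ((Y = C ∧ Z = 2 * Y - A) ∨ (Z = A ∧ Y = 2 * A - C)) →
    B = A ∧ C = A ∧ X = A ∧ Y = A ∧ Z = A := lin_aux

theorem cyclic_ne : ∀ a b c d : Fin 6, Cyclic a b c d → b ≠ a ∧ b ≠ c ∧ b ≠ d ∧ a ≠ c := by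
  decide

theorem cross_used {T : Drawing} {a b : Fin 6} (h : T.Cross a b) :
    a ∈ used T ∧ b ∈ used T ∧ b ≠ a ∧ b ≠ T.join a := by
  obtain ⟨h1, h2, h3, h4⟩ := cyclic_ne _ _ _ _ h
  exact ⟨(mem_used _ _).2 h4.symm, (mem_used _ _).2 h3.symm, h1, h2⟩

theorem nbr_dir_next : ∀ d : Fin 6, nbr (dir d) (d + 2) = dir (d + 1) := by decide
theorem nbr_dir_prev : ∀ d : Fin 6, nbr (dir d) (d + 4) = dir (d + 5) := by decide
theorem nbr_dir_in : ∀ d : Fin 6, nbr (dir d) (d + 3) = (0, 0) := by decide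
theorem nbr_zero : ∀ d : Fin 6, nbr (0, 0) d = dir d := by decide

theorem P_one (d : Fin 6) : P ((1 : ℕ) : ℤ) d 0 = dir d := by
  simp [P]

theorem e1 : ∀ d : Fin 6, d + 2 + 3 = d + 1 + 4 := by decide
theorem e2 : ∀ d : Fin 6, d + 4 + 3 = d + 5 + 2 := by decide
theorem e3 : ∀ d : Fin 6, d + 3 + 3 = d := by decide

theorem pick24 : ∀ d e : Fin 6, e ≠ d → e ≠ d + 1 → e ≠ d + 5 → e ≠ d + 3 →
    e = d + 2 ∨ e = d + 4 := by decide

theorem center_eq {p : Tile} (h : dist p = 0) : p = (0, 0) := by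
  obtain ⟨x, y⟩ := p
  unfold dist at h
  simp only at h
  ext <;> simp only <;> omega

section

variable {M : Mosaic} (hc : M.SuitablyConnected) (ht : M.InteriorTriple) (hr : M.r = 2)

include hc ht hr

/-- the corner tiles -/
theorem corner_join (d : Fin 6) :
    (d + 2 ∈ used (M.tile (dir d)) → (M.tile (dir d)).join (d + 3) = d + 2 ∧
      (M.tile (dir d)).join (d + 2) = d + 3) ∧
    (d + 2 ∉ used (M.tile (dir d)) → (M.tile (dir d)).join (d + 3) = d + 4 ∧
      (M.tile (dir d)).join (d + 4) = d + 3) ∧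
    ∀ a ∈ used (M.tile (dir d)), a = d + 3 ∨ a = (M.tile (dir d)).join (d + 3) := by
  have hn : (1 : ℕ) ≤ 1 := le_rfl
  have hr' : M.r = 1 + 1 := hr
  have hcor := corner hc ht hn hr' d
  obtain ⟨o1, o2⟩ := dist_outer hn d (j := 0) le_rfl (by norm_num)
  obtain ⟨i1, i2⟩ := dist_inner hn d (j := 0) le_rfl (by norm_num)
  have o3 := dist_corner hn d
  rw [P_one] at hcor o1 o2 i1 o3
  have u0 : d ∉ used (M.tile (dir d)) := unused_of_nbr hc (by omega)
  have u1 : d + 1 ∉ used (M.tile (dir d)) := unused_of_nbr hc (by omega)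
  have u5 : d + 5 ∉ used (M.tile (dir d)) := unused_of_nbr hc (by omega)
  have u3 : d + 3 ∈ used (M.tile (dir d)) := used_of_nbr hc ht (by omega)
  have pick : ∀ a ∈ used (M.tile (dir d)), a ≠ d + 3 → a = d + 2 ∨ a = d + 4 := by
    intro a ha h3
    refine pick24 d a ?_ ?_ ?_ h3 <;> rintro rfl
    · exact u0 ha
    · exact u1 ha
    · exact u5 ha
  have hm := join_mem_used u3
  have hj := pick _ hm ((mem_used _ _).1 u3)
  have k1 : d + 2 ∈ used (M.tile (dir d)) → (M.tile (dir d)).join (d + 3) = d + 2 := by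
    intro h
    rcases hj with h1 | h1
    · exact h1
    · rw [h1] at hm
      exact absurd h (hcor.1 hm)
  have k2 : d + 2 ∉ used (M.tile (dir d)) → (M.tile (dir d)).join (d + 3) = d + 4 := by
    intro h
    rcases hj with h1 | h1
    · rw [h1] at hm
      exact absurd hm h
    · exact h1
  refine ⟨fun h => ⟨k1 h, by rw [← k1 h, Drawing.join_join]⟩,
    fun h => ⟨k2 h, by rw [← k2 h, Drawing.join_join]⟩, ?_⟩
  intro a ha
  by_cases h3 : a = d + 3
  · exact Or.inl h3
  · right
    rcases pick a ha h3 with rfl | rfl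
    · exact (k1 ha).symm
    · exact (k2 (hcor.1 ha)).symm

theorem corner_noCross (d a b : Fin 6) : ¬ (M.tile (dir d)).Cross a b := by
  intro h
  obtain ⟨h1, h2, h3, h4⟩ := cross_used h
  obtain ⟨-, -, hu⟩ := corner_join hc ht hr d
  rcases hu a h1 with rfl | ha <;> rcases hu b h2 with hb | hb
  · exact h3 hb
  · exact h4 hb
  · apply h4
    rw [ha, Drawing.join_join]
    exact hb
  · exact h3 (by rw [ha, hb])

theorem two_alternate (d : Fin 6) :
    (d + 1 + 2 ∈ used (M.tile (dir (d + 1))) ↔ d + 2 ∉ used (M.tile (dir d))) := by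
  have h := alternate hc ht (le_refl 1) (show M.r = 1 + 1 from hr) d
  rwa [P_one, P_one] at h

omit hc ht hr in
theorem blank_noCross {p : Tile} (hp : M.r ≤ dist p) (a b : Fin 6) :
    ¬ (M.tile p).Cross a b := by
  intro h
  obtain ⟨h1, -⟩ := cross_used h
  rw [mem_used] at h1
  exact h1 (M.blank p hp a)

theorem halfEdge_center {h : Mosaic.HalfEdge} (hh : M.IsHalfEdge h) : h.1 = (0, 0) := by
  obtain ⟨p, a, b⟩ := h
  change (M.tile p).Cross a b at hh
  show p = (0, 0)
  rcases lt_trichotomy (dist p) 1 with hp | hp | hp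
  · exact center_eq (by omega)
  · obtain ⟨d, j, h0, h1, hpe⟩ := exists_P (le_refl 1) hp
    have hj : j = 0 := by
      have : j < 1 := by exact_mod_cast h1
      omega
    rw [hj, P_one] at hpe
    rw [hpe] at hh
    exact absurd hh (corner_noCross hc ht hr d a b)
  · exact absurd hh (blank_noCross (by omega) a b)

omit hc in
theorem center_join (a : Fin 6) : (M.tile (0, 0)).join a = a + 3 :=
  ht (0, 0) (by rw [hr]; decide) a

omit hc in
theorem center_cross (a b : Fin 6) : (M.tile (0, 0)).Cross a b ↔ Cyc0 a b := by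
  unfold Drawing.Cross Cyc0
  rw [center_join ht hr, center_join ht hr]

omit hc in
theorem center_nearer (a b c : Fin 6) :
    (M.tile (0, 0)).Nearer a b c ↔ Near0 (M.tile (0, 0)).odd a b c := by
  unfold Drawing.Nearer Near0
  rw [center_cross ht hr, center_cross ht hr]

omit hc in
theorem arrive_center {a : Fin 6} {h : Mosaic.HalfEdge} (hh : M.Arrive (0, 0) a h) :
    h = ((0, 0), a, near (M.tile (0, 0)).odd a) := by
  set o := (M.tile (0, 0)).odd with ho
  cases hh with
  | cross _ _ b h1 h2 =>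
    rcases (g1 o a b).1 ((center_cross ht hr a b).1 h1) with h3 | h3
    · rw [h3]
    · exfalso
      have h4 := h2 (near o a) ((center_cross ht hr _ _).2 (g7 o a)) (by rw [h3]; exact g6 o a)
      rw [center_nearer ht hr, h3] at h4
      exact g4 o a h4
  | pass _ _ _ h1 _ =>
    exact absurd ((center_cross ht hr _ _).2 (g7 o a)) (h1 _)

theorem arrive_corner {d : Fin 6} {h : Mosaic.HalfEdge}
    (hh : M.Arrive (dir d) (d + 3) h) :
    (d + 2 ∈ used (M.tile (dir d)) →
      h = ((0, 0), d + 1, near (M.tile (0, 0)).odd (d + 1))) ∧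
    (d + 2 ∉ used (M.tile (dir d)) →
      h = ((0, 0), d + 5, near (M.tile (0, 0)).odd (d + 5))) := by
  obtain ⟨c1, c2, -⟩ := corner_join hc ht hr d
  cases hh with
  | cross _ _ b h1 _ => exact absurd h1 (corner_noCross hc ht hr d _ _)
  | pass _ _ _ h1 h2 =>
    constructor
    · intro hd
      rw [(c1 hd).1, nbr_dir_next, e1] at h2
      obtain ⟨-, c4, -⟩ := corner_join hc ht hr (d + 1)
      have hd' : d + 1 + 2 ∉ used (M.tile (dir (d + 1))) := by
        rw [two_alternate hc ht hr]; simpa using hd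
      cases h2 with
      | cross _ _ b h3 _ => exact absurd h3 (corner_noCross hc ht hr _ _ _)
      | pass _ _ _ h3 h4 =>
        rw [(c4 hd').2, nbr_dir_in, e3] at h4
        exact arrive_center ht hr h4
    · intro hd
      rw [(c2 hd).1, nbr_dir_prev, e2] at h2
      obtain ⟨c3, -, -⟩ := corner_join hc ht hr (d + 5)
      have hd' : d + 5 + 2 ∈ used (M.tile (dir (d + 5))) := by
        by_contra hcon
        have h5 := (two_alternate hc ht hr (d + 5)).2 hcon
        have e4 : d + 5 + 1 = d := by clear * -; revert d; decide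
        rw [e4] at h5
        exact hd h5
      cases h2 with
      | cross _ _ b h3 _ => exact absurd h3 (corner_noCross hc ht hr _ _ _)
      | pass _ _ _ h3 h4 =>
        rw [(c3 hd').2, nbr_dir_in, e3] at h4
        exact arrive_center ht hr h4

theorem edge_near {a : Fin 6} {h : Mosaic.HalfEdge}
    (hh : M.Edge ((0, 0), a, near (M.tile (0, 0)).odd a) h) :
    (a + 2 ∈ used (M.tile (dir a)) →
      h = ((0, 0), a + 1, near (M.tile (0, 0)).odd (a + 1))) ∧
    (a + 2 ∉ used (M.tile (dir a)) →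
      h = ((0, 0), a + 5, near (M.tile (0, 0)).odd (a + 5))) := by
  cases hh with
  | inside _ _ _ c h1 h2 _ =>
    exfalso
    exact g2 _ _ c ((center_cross ht hr _ _).1 h1) ((center_nearer ht hr _ _ _).1 h2)
  | leave _ _ _ _ _ h2 =>
    rw [nbr_zero] at h2
    exact arrive_corner hc ht hr h2

omit hc in
theorem edge_far {a : Fin 6} {h : Mosaic.HalfEdge}
    (hh : M.Edge ((0, 0), a, far (M.tile (0, 0)).odd a) h) :
    h = ((0, 0), a + 3, far (M.tile (0, 0)).odd (a + 3)) := by
  cases hh with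
  | inside _ _ _ c h1 h2 _ =>
    have h3 := g3 _ _ c ((center_cross ht hr _ _).1 h1) ((center_nearer ht hr _ _ _).1 h2)
    rw [h3, center_join ht hr, center_join ht hr, g5]
  | leave _ _ _ _ h1 _ =>
    exfalso
    have h3 := h1 _ ((center_cross ht hr _ _).2 (g7 (M.tile (0, 0)).odd a)) (g6 _ a)
    rw [center_nearer ht hr] at h3
    exact g4 _ a h3

theorem center_diagram {D : Diagram} (hD : M.IsDiagram D) : ¬ HasCol D := by
  rintro ⟨c, hcol, hnc⟩
  obtain ⟨φ, hinj, hrange, hrot, htop, hedge⟩ := hD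
  set o := (M.tile (0, 0)).odd with ho
  -- the outer and the inner half-edges
  have hδ : ∀ a, ∃ d, φ d = ((0, 0), a, near o a) := fun a =>
    (hrange _).2 ((center_cross ht hr _ _).2 (g7 o a))
  have hι : ∀ a, ∃ d, φ d = ((0, 0), a, far o a) := fun a =>
    (hrange _).2 ((center_cross ht hr _ _).2 (g8 o a))
  choose δ hδ using hδ
  choose ι hι using hι
  have hall : ∀ d, (∃ a, d = δ a) ∨ ∃ a, d = ι a := by
    intro d
    have h1 : M.IsHalfEdge (φ d) := (hrange _).1 ⟨d, rfl⟩
    have h2 := halfEdge_center hc ht hr h1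
    obtain ⟨⟨p, a, b⟩, he⟩ : ∃ q, φ d = q := ⟨_, rfl⟩
    rw [he] at h1 h2
    change p = (0, 0) at h2
    subst h2
    have h3 := (center_cross ht hr a b).1 h1
    rcases (g1 o a b).1 h3 with h4 | h4
    · exact Or.inl ⟨a, hinj (by rw [he, hδ, h4])⟩
    · exact Or.inr ⟨a, hinj (by rw [he, hι, h4])⟩
  have hδL : ∀ a, a + 2 ∈ used (M.tile (dir a)) → c (δ a) = c (δ (a + 1)) := by
    intro a ha
    have h1 := hedge (δ a)
    rw [hδ] at h1
    have h2 := (edge_near hc ht hr h1).1 ha
    have h3 : D.opp (δ a) = δ (a + 1) := hinj (by rw [h2, hδ])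
    rw [← h3, hcol.opp]
  have hδR : ∀ a, a + 2 ∉ used (M.tile (dir a)) → c (δ a) = c (δ (a + 5)) := by
    intro a ha
    have h1 := hedge (δ a)
    rw [hδ] at h1
    have h2 := (edge_near hc ht hr h1).2 ha
    have h3 : D.opp (δ a) = δ (a + 5) := hinj (by rw [h2, hδ])
    rw [← h3, hcol.opp]
  have hιι : ∀ a, c (ι a) = c (ι (a + 3)) := by
    intro a
    have h1 := hedge (ι a)
    rw [hι] at h1
    have h2 := edge_far ht hr h1
    have h3 : D.opp (ι a) = ι (a + 3) := hinj (by rw [h2, hι])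
    rw [← h3, hcol.opp]
  -- the crossings
  have hx : ∀ a, near o a = a + 1 →
      (c (ι a) = c (δ a) ∧ c (ι (a + 1)) = 2 * c (ι a) - c (δ (a + 1))) ∨
      (c (ι (a + 1)) = c (δ (a + 1)) ∧ c (ι a) = 2 * c (δ (a + 1)) - c (δ a)) := by
    intro a ha
    have r1 : rot (δ a) = δ (a + 1) := by
      apply hinj
      rw [hrot, hδ, hδ]
      show ((0, 0), near o a, (M.tile (0, 0)).join a) = ((0, 0), a + 1, near o (a + 1))
      rw [center_join ht hr, ha, g9 o a ha]
    have r2 : rot (δ (a + 1)) = ι (a + 3) := by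
      apply hinj
      rw [hrot, hδ, hι]
      show ((0, 0), near o (a + 1), (M.tile (0, 0)).join (a + 1)) = ((0, 0), a + 3, far o (a + 3))
      rw [center_join ht hr, g9 o a ha, g10 o a ha]
    have r3 : rot (ι (a + 3)) = ι (a + 4) := by
      apply hinj
      rw [hrot, hι, hι]
      show ((0, 0), far o (a + 3), (M.tile (0, 0)).join (a + 3)) = ((0, 0), a + 4, far o (a + 4))
      rw [center_join ht hr, g10 o a ha, g11 o a ha, add134, e3]
    have t1 : thru (δ a) = ι (a + 3) := by rw [thru_eq, r1, r2]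
    have t2 : thru (δ (a + 1)) = ι (a + 4) := by rw [thru_eq, r2, r3]
    have i2 : c (ι (a + 4)) = c (ι (a + 1)) := by rw [hιι (a + 1), add134]
    by_cases hov : IsOver (δ a)
    · left
      have h1 := hcol.top _ hov
      rw [t1, ← hιι] at h1
      have h2 : ¬ IsOver (δ (a + 1)) := by
        rw [← r1, isOver_rot]; exact fun h => h hov
      have h3 := hcol.bot _ h2
      rw [t2, i2, r2, ← hιι] at h3
      exact ⟨h1, h3⟩
    · right
      have h2 : IsOver (δ (a + 1)) := by
        rw [← r1, isOver_rot]; exact hov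
      have h3 := hcol.top _ h2
      rw [t2, i2] at h3
      have h1 := hcol.bot _ hov
      rw [t1, ← hιι, r1] at h1
      exact ⟨h3, h1⟩
  obtain ⟨a, ha⟩ := g14 o
  have ha2 := g12 o a ha
  have ha4 := g13 o a ha
  have x0 := hx a ha
  have x2 := hx (a + 2) ha2
  have x4 := hx (a + 4) ha4
  have j3 := hιι a
  have j4 := hιι (a + 1)
  have j5 := hιι (a + 2)
  rw [add134] at j4
  rw [add235] at j5
  rw [add213] at x2
  rw [add415] at x4
  have key : c (δ (a + 1)) = c (δ a) ∧ c (δ (a + 2)) = c (δ a) ∧ c (δ (a + 3)) = c (δ a) ∧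
      c (δ (a + 4)) = c (δ a) ∧ c (δ (a + 5)) = c (δ a) ∧ c (ι a) = c (δ a) ∧
      c (ι (a + 1)) = c (δ a) ∧ c (ι (a + 2)) = c (δ a) := by
    have alt : ∀ d, (d + 1 + 2 ∈ used (M.tile (dir (d + 1))) ↔
      d + 2 ∉ used (M.tile (dir d))) := two_alternate hc ht hr
    have m1 := alt a
    have m2 := alt (a + 1)
    have m3 := alt (a + 2)
    have m4 := alt (a + 3)
    have m5 := alt (a + 4)
    rw [add112] at m2
    rw [add213] at m3
    rw [add314] at m4
    rw [add415] at m5
    by_cases hL : a + 2 ∈ used (M.tile (dir a))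
    · have n1 : ¬ (a + 1 + 2 ∈ used (M.tile (dir (a + 1)))) := fun h => m1.1 h hL
      have n2 := m2.2 n1
      have n3 : ¬ (a + 3 + 2 ∈ used (M.tile (dir (a + 3)))) := fun h => m3.1 h n2
      have n4 := m4.2 n3
      have q0 := hδL a hL
      have q2 := hδL _ n2
      have q4 := hδL _ n4
      rw [add213] at q2
      rw [add415] at q4
      rw [← q0] at x0
      rw [← q2, ← j3] at x2
      rw [← q4, ← j4, ← j5] at x4
      have y0 : c (ι a) = c (δ a) ∧ c (ι (a + 1)) = c (δ a) := by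
        rcases x0 with ⟨h1, h2⟩ | ⟨h1, h2⟩
        · exact ⟨h1, by rw [h2, h1]; ring⟩
        · exact ⟨by rw [h2]; ring, h1⟩
      have y2 : c (ι (a + 2)) = c (δ (a + 2)) ∧ c (ι a) = c (δ (a + 2)) := by
        rcases x2 with ⟨h1, h2⟩ | ⟨h1, h2⟩
        · exact ⟨h1, by rw [h2, h1]; ring⟩
        · exact ⟨by rw [h2]; ring, h1⟩
      have y4 : c (ι (a + 1)) = c (δ (a + 4)) ∧ c (ι (a + 2)) = c (δ (a + 4)) := by
        rcases x4 with ⟨h1, h2⟩ | ⟨h1, h2⟩
        · exact ⟨h1, by rw [h2, h1]; ring⟩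
        · exact ⟨by rw [h2]; ring, h1⟩
      have z2 : c (δ (a + 2)) = c (δ a) := by rw [← y2.2, y0.1]
      have z4 : c (δ (a + 4)) = c (δ a) := by rw [← y4.1, y0.2]
      exact ⟨q0.symm, z2, by rw [← q2, z2], z4, by rw [← q4, z4], y0.1, y0.2,
        by rw [y2.1, z2]⟩
    · have n1 := m1.2 hL
      have n2 : ¬ (a + 2 + 2 ∈ used (M.tile (dir (a + 2)))) := fun h => m2.1 h n1
      have n3 := m3.2 n2
      have n4 : ¬ (a + 4 + 2 ∈ used (M.tile (dir (a + 4)))) := fun h => m4.1 h n3
      have n5 := m5.2 n4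
      have q1 := hδL _ n1
      have q3 := hδL _ n3
      have q5 := hδL _ n5
      rw [add112] at q1
      rw [add314] at q3
      rw [add516] at q5
      rw [← q5] at x0 ⊢
      rw [← q1, ← j3] at x2
      rw [← q3, ← j4, ← j5] at x4
      rw [← q1, ← q3]
      have := lin (c (δ (a + 5))) (c (δ (a + 1))) (c (δ (a + 3))) (c (ι a)) (c (ι (a + 1)))
        (c (ι (a + 2))) x0 x2 x4
      obtain ⟨z1, z2, z3, z4, z5⟩ := this
      exact ⟨z1, z1, z2, z2, rfl, z3, z4, z5⟩
  obtain ⟨k1, k2, k3, k4, k5, l0, l1, l2⟩ := key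
  have hconst : ∀ d, c d = c (δ a) := by
    intro d
    rcases hall d with ⟨b, rfl⟩ | ⟨b, rfl⟩
    · rcases six b a with rfl | rfl | rfl | rfl | rfl | rfl
      · rfl
      · exact k1
      · exact k2
      · exact k3
      · exact k4
      · exact k5
    · rcases six b a with rfl | rfl | rfl | rfl | rfl | rfl
      · exact l0
      · exact l1
      · exact l2
      · rw [← j3]; exact l0
      · rw [← j4]; exact l1
      · rw [← j5]; exact l2
  obtain ⟨d, e, hde⟩ := hnc
  exact hde (by rw [hconst d, hconst e])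

end

end Q174.HX
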